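import Pool.Agent.H72.REC.Ent

/-!
# Exactness behind records: proof
-/

set_option autoImplicit false

namespace Pool.REX

open Finset Real
open Pool.Agent.H49.Ent Pool.Agent.H32.Dense Pool.STK Pool.KA Pool.KSAT Pool.K2S Pool.PB Pool.S6C
open Pool.GEN

variable {m n J : ℕ}

/-! ### The class of the zooms -/

/-- The zooms. -/
theorem rec_cases {S : PCl m} {v : Vz m} {τ : ℝ} {Φ : Stat m}
    (h : ∀ (J : ℕ) (F : Fam m J) (A : F.Ω → Prop) (hP : v.P J ≤ J - v.B J), S.St τ J F A →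
      Φ (v.R J) (v.fam F hP) A) {J : ℕ} {F : Fam m J} {A : F.Ω → Prop}
    (hA : (RecC S v).St τ J F A) : Φ J F A := by
  have key : ∀ (J : ℕ) (F : Fam m J) (A : F.Ω → Prop) (hq : ⌊v.p * (J : ℝ)⌋₊ ≤ J),
      WySt S v τ J F A → Φ (J - ⌊v.p * (J : ℝ)⌋₊) (F.tub _ hq) A := by
    rintro J F A hq ⟨J, F, A, hS⟩
    exact h J F A hq hS
  obtain ⟨J, F, A, hq, hS⟩ := hA
  exact key J F A hq hS

theorem rec_mk {S : PCl m} {v : Vz m} {τ : ℝ} {F : Fam m J} {A : F.Ω → Prop}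
    (h : S.St τ J F A) (hP : v.P J ≤ J - v.B J) : (RecC S v).St τ (v.R J) (v.fam F hP) A :=
  TubSt.mk (J - v.B J) (v.win F) A hP (WySt.mk J F A h)

/-- The class of the zooms is nonempty. -/
theorem rec_ne {S : PCl m} (hS : S.Ne) (v : Vz m) : (RecC S v).Ne := by
  intro τ hτ J₁
  have hb1 := v.b1
  have hp1 := v.p1
  have hc : 0 < (1 - v.b) * (1 - v.p) := mul_pos (by linarith) (by linarith)
  obtain ⟨J₂, hJ₂⟩ := exists_nat_ge (1 / ((1 - v.b) * (1 - v.p)) * J₁)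
  obtain ⟨J, hJ, F, A, hA⟩ := hS τ hτ J₂
  obtain ⟨h1, h2, h3⟩ := v.floor_le J
  refine ⟨v.R J, ?_, v.fam F h2, A, rec_mk hA h2⟩
  have h4 : (J₂ : ℝ) ≤ J := by exact_mod_cast hJ
  have h5 : 1 / ((1 - v.b) * (1 - v.p)) * (J₁ : ℝ) ≤ 1 / ((1 - v.b) * (1 - v.p)) * v.R J := by
    linarith
  have h6 : (J₁ : ℝ) ≤ v.R J := le_of_mul_le_mul_left h5 (by positivity)
  exact_mod_cast h6

/-- The time in the windows. -/
theorem win_tm (v : Vz m) (F : Fam m J) {q : F.Ω → ℝ} (hq : IsLaw q) {e : ℝ}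
    (hT : TmQ F q e) : TmQ (v.win F) q e := by
  have hB := (v.floor_le J).1
  obtain ⟨G, hG⟩ : ∃ G : Fam m J, G = { F with p := q, isLaw := hq } := ⟨_, rfl⟩
  have hGT : G.Tm e := by
    rw [hG]
    exact hT
  have h1 := (Pool.KA.win_thm m J G (v.B J) hB).1 e hGT
  subst hG
  unfold Fam.Tm at h1
  unfold TmQ
  refine h1.trans ?_
  refine CH_mono_cond hq.nonneg fun ω ω' _ _ h => ?_
  have a1 := Prod.ext_iff.mp h
  have hl : (F.win (v.B J)).l ω = (F.win (v.B J)).l ω' := a1.1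
  have hZ : (F.win (v.B J)).Z ω = (F.win (v.B J)).Z ω' := a1.2
  obtain ⟨e1, e2, e3⟩ := Pool.K2S.NPL.win_det F (v.B J) hl hZ
  have hy : v.y J F ω = v.y J F ω' := v.line J F ω ω' (Prod.ext e1 (Prod.ext e3 e2))
  exact Prod.ext hl (Prod.ext hy hZ)

/-- The time in the zooms. -/
theorem fam_tm (v : Vz m) (F : Fam m J) (hP : v.P J ≤ J - v.B J) {q : F.Ω → ℝ} (hq : IsLaw q)
    {e : ℝ} (hT : TmQ F q e) : TmQ (v.fam F hP) q e := by
  have h1 := win_tm v F hq hT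
  obtain ⟨G, hG⟩ : ∃ G : Fam m (J - v.B J), G = { v.win F with p := q, isLaw := hq } := ⟨_, rfl⟩
  have hGT : G.Tm e := by
    rw [hG]
    exact h1
  have h2 := ((tub_thm m).choose_spec.2 (J - v.B J) G (v.P J) hP e hGT).1
  subst hG
  exact h2

/-- The events and the times in the zooms. -/
theorem rec_tm {S : PCl m} {C₀ : ℝ} (hC : 0 ≤ C₀) (h : TmC S C₀) (v : Vz m) :
    TmC (RecC S v) (C₀ * (1 / ((1 - v.b) * (1 - v.p)))) := by
  intro τ J F A hτ hA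
  refine rec_cases (S := S) (v := v) (τ := τ) (Φ := fun J F A => 0 < Pe F.p A ∧
    ∀ h : IsLaw (Pool.Agent.H49.Ent.cond F.p A True),
      (F.res A True h).Tm (C₀ * (1 / ((1 - v.b) * (1 - v.p))) * τ * J)) ?_ hA
  intro J F A hP hS
  obtain ⟨h1, h2⟩ := h τ J F A hτ hS
  refine ⟨h1, fun hl => ?_⟩
  have h3 := h2 hl
  have h4 : TmQ F (Pool.Agent.H49.Ent.cond F.p A True) (C₀ * τ * J) := h3
  have h5 := fam_tm v F hP hl h4
  have h6 := (v.floor_le J).2.2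
  unfold TmQ at h5
  unfold Fam.Tm
  have h7 : C₀ * τ * (J : ℝ) ≤ C₀ * (1 / ((1 - v.b) * (1 - v.p))) * τ * (v.R J : ℝ) := by
    calc C₀ * τ * (J : ℝ) ≤ C₀ * τ * (1 / ((1 - v.b) * (1 - v.p)) * (v.R J : ℝ)) :=
          mul_le_mul_of_nonneg_left h6 (mul_nonneg hC hτ.le)
      _ = _ := by ring
  refine le_trans ?_ h5
  linarith

/-! ### Arithmetic -/

theorem one_sub_sc (v : Vz m) (x : ℝ) : 1 - v.sc x = (1 - v.b) * (1 - v.p) * (1 - x) := by
  unfold Vz.sc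
  ring

/-- The windows fit for large `J`. -/
theorem win_fit (v : Vz m) {w : ℝ} (hw0 : 0 < w) (hw1 : w < 1) : ∃ J₀ : ℕ, ∀ J ≥ J₀,
    ⌊v.tm w * J⌋₊ + v.P J ≤ J ∧ ⌊w * (v.R J : ℝ)⌋₊ + 1 ≤ J - v.B J - v.P J ∧
      ⌊v.tm w * J⌋₊ ≤ v.B J + ⌊w * (v.R J : ℝ)⌋₊ + 1 := by
  have hb0 := v.b0
  have hb1 := v.b1
  have hp0 := v.p0
  have hp1 := v.p1
  have hc : 0 < (1 - v.b) * (1 - v.p) := mul_pos (by linarith) (by linarith)
  have hc1 : 0 < (1 - v.b) * (1 - v.p) * (1 - w) := mul_pos hc (by linarith)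
  obtain ⟨J₀, hJ₀⟩ := exists_nat_ge (1 / ((1 - v.b) * (1 - v.p) * (1 - w)))
  refine ⟨J₀, fun J hJ => ?_⟩
  have hJr : (0 : ℝ) ≤ J := Nat.cast_nonneg J
  have h0 : (J₀ : ℝ) ≤ J := by exact_mod_cast hJ
  have h1 : 1 ≤ (1 - v.b) * (1 - v.p) * (1 - w) * J := by
    have := hJ₀.trans h0
    rw [div_le_iff₀ hc1] at this
    linarith
  obtain ⟨k1, k2, k3⟩ := v.floor_le J
  have htm0 : 0 ≤ v.tm w * J := by
    unfold Vz.tm
    have : 0 ≤ (1 - v.b) * (1 - v.p) * w := mul_nonneg hc.le hw0.le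
    exact mul_nonneg (by linarith) hJr
  have a1 : (⌊v.tm w * (J : ℝ)⌋₊ : ℝ) ≤ v.tm w * J := Nat.floor_le htm0
  have a2 : (v.B J : ℝ) ≤ v.b * J := Nat.floor_le (by positivity)
  have a3 : v.b * J < v.B J + 1 := Nat.lt_floor_add_one _
  have a4 : ((J - v.B J : ℕ) : ℝ) = J - v.B J := by rw [Nat.cast_sub k1]
  have a5 : (v.P J : ℝ) ≤ v.p * ((J - v.B J : ℕ) : ℝ) :=
    Nat.floor_le (mul_nonneg hp0 (Nat.cast_nonneg _))
  have a6 : (v.R J : ℝ) = ((J - v.B J : ℕ) : ℝ) - v.P J := by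
    unfold Vz.R
    rw [Nat.cast_sub k2]
  have a7 : (1 - v.b) * (1 - v.p) * J ≤ (v.R J : ℝ) := by
    have := k3
    rw [one_div, ← div_eq_inv_mul, le_div_iff₀ hc] at this
    linarith
  have a8 : (⌊w * (v.R J : ℝ)⌋₊ : ℝ) ≤ w * v.R J :=
    Nat.floor_le (mul_nonneg hw0.le (Nat.cast_nonneg _))
  have a9 := Nat.lt_floor_add_one (w * (v.R J : ℝ))
  have htm : v.tm w * J = v.b * J + w * ((1 - v.b) * (1 - v.p) * J) := by
    unfold Vz.tm
    ring
  refine ⟨?_, ?_, ?_⟩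
  · have : ((⌊v.tm w * (J : ℝ)⌋₊ + v.P J : ℕ) : ℝ) ≤ J := by
      push_cast
      have b1 : (v.P J : ℝ) ≤ v.p * ((1 - v.b) * J + 1) := by
        refine a5.trans (mul_le_mul_of_nonneg_left ?_ hp0)
        rw [a4]
        linarith
      have b2 : (1 - v.b) * (1 - v.p) * (1 - w) * J = J - (v.b * J + w * ((1 - v.b) *
        (1 - v.p) * J)) - v.p * ((1 - v.b) * J) := by ring
      have b3 : v.p * ((1 - v.b) * J + 1) = v.p * ((1 - v.b) * J) + v.p := by ring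
      linarith
    exact_mod_cast this
  · have b1 : (((⌊w * (v.R J : ℝ)⌋₊ + 1 : ℕ)) : ℝ) ≤ v.R J := by
      push_cast
      have b2 : (1 - w) * ((1 - v.b) * (1 - v.p) * J) ≤ (1 - w) * (v.R J : ℝ) :=
        mul_le_mul_of_nonneg_left a7 (by linarith)
      have b3 : (1 - w) * ((1 - v.b) * (1 - v.p) * J) = (1 - v.b) * (1 - v.p) * (1 - w) * J := by
        ring
      linarith
    have b2 : ⌊w * (v.R J : ℝ)⌋₊ + 1 ≤ v.R J := by exact_mod_cast b1
    exact b2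
  · have : (⌊v.tm w * (J : ℝ)⌋₊ : ℝ) < v.B J + ⌊w * (v.R J : ℝ)⌋₊ + 1 + 1 := by
      have b2 := mul_le_mul_of_nonneg_left a7 hw0.le
      linarith
    have b3 : ⌊v.tm w * (J : ℝ)⌋₊ < v.B J + ⌊w * (v.R J : ℝ)⌋₊ + 1 + 1 := by exact_mod_cast this
    omega

/-! ### Exactness -/

/-- **Exactness behind records.** -/
theorem rex (n : ℕ) : RexStmt n := by
  classical
  intro hF m S C₀ hC₀ htm v S' hne hsub L hL N al g₀ hal hg₀ hN ε hε hact w hw ρ hρ
  obtain ⟨hw0, hw1, hgr, hct⟩ := hw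
  have hb0 := v.b0
  have hb1 := v.b1
  have hp0 := v.p0
  have hp1 := v.p1
  obtain ⟨c, hc⟩ : ∃ c, c = (1 - v.b) * (1 - v.p) := ⟨_, rfl⟩
  have hc0 : 0 < c := by rw [hc]; exact mul_pos (by linarith) (by linarith)
  have hc1 : c ≤ 1 := by
    rw [hc]
    exact mul_le_one₀ (by linarith) (by linarith) (by linarith)
  have hl2 : 0 < Real.log 2 := Real.log_pos one_lt_two
  have hl99 := k99_nonneg
  have htm' : TmC S' (C₀ * (1 / c)) := by
    intro τ J F A hτ hA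
    rw [hc]
    exact rec_tm hC₀ htm v τ J F A hτ (hsub τ J F A hA)
  have hpos' : Bas S' (fun _ F A => 0 < Pe F.p A) :=
    ⟨1, one_pos, 0, fun J _ F A hA => (htm' 1 J F A one_pos hA).1⟩
  obtain ⟨X, hX⟩ : ∃ X, X = ∑ j : Fin n, (1 - vs L ε w (j + 1)) := ⟨_, rfl⟩
  have hXn : X ≤ n := by
    rw [hX]
    refine (Finset.sum_le_sum fun j _ => ?_).trans (le_of_eq ?_) (b := ∑ _j : Fin n, (1 : ℝ))
    · have := le_vs hL ε hw1.le ((j : ℕ) + 1)
      linarith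
    · rw [Finset.sum_const, Finset.card_univ, Fintype.card_fin, nsmul_eq_mul, mul_one]
  have hsum : ∑ j : Fin n, (1 - v.sc (vs L ε w (j + 1))) = c * X := by
    rw [hX, Finset.mul_sum]
    refine Finset.sum_congr rfl fun j _ => ?_
    rw [one_sub_sc, hc]
  rw [hsum]
  -- the trivial case
  by_cases htriv : c * X - ρ ≤ 0
  · refine ⟨1, one_pos, 0, fun J _ F A hA V z z' _ => ?_⟩
    have hJ : (0 : ℝ) ≤ J := Nat.cast_nonneg J
    have h1 := (htm 1 J F A one_pos hA.1).1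
    refine le_trans ?_ (CH_nonneg (isLaw_cond F.isLaw h1).nonneg _ _)
    exact mul_nonpos_of_nonpos_of_nonneg (mul_nonpos_of_nonpos_of_nonneg htriv hl2.le) hJ
  push Not at htriv
  have hXρ : ρ < X := by
    have hX0 : 0 < X := by
      by_contra h
      push Not at h
      have := mul_nonpos_of_nonneg_of_nonpos hc0.le h
      linarith
    have : c * X ≤ X := by nlinarith
    linarith
  obtain ⟨τ₁, hτ₁, J₁, hex⟩ := vst_exa hF hne (mul_nonneg hC₀ (by positivity)) htm' hL hal hg₀ hN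
    hpos' hε hact hw0 hw1 hgr hct (ρ := ρ / 4) (by positivity)
  rw [← hX] at hex
  obtain ⟨δ, hδ⟩ : ∃ δ, δ = ρ / (2 * (n + 1)) := ⟨_, rfl⟩
  have hn0 : (0 : ℝ) ≤ n := Nat.cast_nonneg n
  have hδ0 : 0 < δ := by rw [hδ]; positivity
  have hδn : δ * n ≤ ρ / 2 := by
    have : δ * (2 * (n + 1)) = ρ := by rw [hδ]; field_simp
    nlinarith
  obtain ⟨K₀, hK₀⟩ : ∃ K₀, K₀ = 2 * C₀ + 3 := ⟨_, rfl⟩
  have hK₀0 : 0 < K₀ := by rw [hK₀]; linarith
  obtain ⟨τ, hτ⟩ : ∃ τ, τ = min (c * τ₁ / K₀) (ρ * Real.log 2 / (8 * ((C₀ + 1) * K₀))) :=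
    ⟨_, rfl⟩
  have hτ0 : 0 < τ := by
    rw [hτ]
    exact lt_min (by positivity) (by positivity)
  have hτa : 1 / c * (K₀ * τ) ≤ τ₁ := by
    have h1 : τ ≤ c * τ₁ / K₀ := by rw [hτ]; exact min_le_left _ _
    rw [le_div_iff₀ hK₀0] at h1
    rw [one_div, ← div_eq_inv_mul, div_le_iff₀ hc0]
    linarith
  have hτb : C₀ * (K₀ * τ) ≤ ρ * Real.log 2 / 8 := by
    have h1 : τ ≤ ρ * Real.log 2 / (8 * ((C₀ + 1) * K₀)) := by rw [hτ]; exact min_le_right _ _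
    rw [le_div_iff₀ (by positivity)] at h1
    have h2 : 0 ≤ K₀ * τ := by positivity
    nlinarith
  obtain ⟨J₂, hfit⟩ := win_fit v hw0 hw1
  obtain ⟨J₃, hJ₃⟩ := exists_nat_ge (1 / c * J₁)
  obtain ⟨J₄, hJ₄⟩ := exists_nat_ge ((m * k99 + Real.log 2 +
    |Real.log (1 / δ)|) / τ)
  obtain ⟨J₅, hJ₅⟩ := exists_nat_ge (n * k99 / (ρ * Real.log 2 / 8))
  refine ⟨τ, hτ0, max (max J₂ J₃) (max J₄ J₅), fun J hJ F A hA V z z' hz => ?_⟩
  have j2 : J₂ ≤ J := ((le_max_left _ _).trans (le_max_left _ _)).trans hJ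
  have j3 : (J₃ : ℝ) ≤ J := by
    exact_mod_cast ((le_max_right _ _).trans (le_max_left _ _)).trans hJ
  have j4 : (J₄ : ℝ) ≤ J := by
    exact_mod_cast ((le_max_left _ _).trans (le_max_right _ _)).trans hJ
  have j5 : (J₅ : ℝ) ≤ J := by
    exact_mod_cast ((le_max_right _ _).trans (le_max_right _ _)).trans hJ
  have hJ0 : (0 : ℝ) ≤ J := Nat.cast_nonneg J
  obtain ⟨f1, f2, f3⟩ := hfit J j2
  obtain ⟨k1, k2, k3⟩ := v.floor_le J
  rw [← hc] at k3
  have g1 : m * k99 + Real.log 2 + |Real.log (1 / δ)| ≤ τ * J := by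
    have := hJ₄.trans j4
    rw [div_le_iff₀ hτ0] at this
    linarith
  have g2 : n * k99 ≤ ρ * Real.log 2 / 8 * J := by
    have := hJ₅.trans j5
    rw [div_le_iff₀ (by positivity)] at this
    linarith
  have hm99 : 0 ≤ (m : ℝ) * k99 := by positivity
  have g3 : Real.exp (-(τ * J)) ≤ δ := by
    have h1 : Real.log (1 / δ) ≤ τ * J := by
      have := le_abs_self (Real.log (1 / δ))
      linarith
    rw [one_div, Real.log_inv] at h1
    calc Real.exp (-(τ * J)) ≤ Real.exp (Real.log δ) := Real.exp_le_exp.2 (by linarith)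
      _ = δ := Real.exp_log hδ0
  have hApos := (htm τ J F A hτ0 hA.1).1
  have hJ1 : J₁ ≤ v.R J := by
    have h1 : 1 / c * (J₁ : ℝ) ≤ 1 / c * v.R J := hJ₃.trans (j3.trans k3)
    have h2 : (J₁ : ℝ) ≤ v.R J := le_of_mul_le_mul_left h1 (by positivity)
    exact_mod_cast h2
  -- the bound on parts
  obtain ⟨E, hE⟩ : ∃ E, E = (c * X - ρ / 2) * Real.log 2 * J := ⟨_, rfl⟩
  have hE0 : 0 ≤ E := by
    rw [hE]
    exact mul_nonneg (mul_nonneg (by linarith) hl2.le) hJ0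
  have main := exh_ge (p := F.p) F.isLaw hApos (fun ω j => F.X J ω (ε j))
    (fun ω => (z' (slam F ⌊v.tm w * J⌋₊ ω), F.W ω)) hE0 hδ0.le (fun B hBA hB0 hPB => by
    have s1 : (pul S v S').St (τ + τ) J F B := by
      refine (pul S v S').res hτ0.le hA hBA ?_
      exact (mul_le_mul_of_nonneg_right g3 hApos.le).trans hPB
    have t1 : TmQ F (Pool.Agent.H49.Ent.cond F.p B True) (C₀ * (τ + τ) * J) :=
      (htm (τ + τ) J F B (by linarith) s1.1).2 (isLaw_cond F.isLaw hB0)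
    obtain ⟨B', hB'B, hPB', z₁, z₁', hcl, hval⟩ := closed F k2 (v.y J F) k1 (v.line J F) hB0 t1
      f1 f2 f3 (z := z) (z' := z') (fun ω hω => hz ω (hBA ω hω))
    have hexp : Real.exp (-((2 * C₀ + 1) * τ * J)) ≤ Real.exp (-(m * k99 +
        C₀ * (τ + τ) * J + Real.log 2)) := by
      refine Real.exp_le_exp.2 (neg_le_neg ?_)
      have : (2 * C₀ + 1) * τ * J = C₀ * (τ + τ) * J + τ * J := by ring
      rw [this]
      have := abs_nonneg (Real.log (1 / δ))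
      linarith
    have hPB'' : Real.exp (-((2 * C₀ + 1) * τ * J)) * Pe F.p B ≤ Pe F.p B' :=
      (mul_le_mul_of_nonneg_right hexp hB0.le).trans hPB'
    have hB'0 : 0 < Pe F.p B' := lt_of_lt_of_le (mul_pos (Real.exp_pos _) hB0) hPB''
    have s2 : (pul S v S').St (τ + τ + (2 * C₀ + 1) * τ) J F B' :=
      (pul S v S').res (mul_nonneg (by linarith) hτ0.le) s1 hB'B hPB''
    have e1 : τ + τ + (2 * C₀ + 1) * τ = K₀ * τ := by rw [hK₀]; ring
    rw [e1] at s2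
    have hq' := isLaw_cond F.isLaw hB'0
    have t2 : TmQ F (Pool.Agent.H49.Ent.cond F.p B' True) (C₀ * (K₀ * τ) * J) :=
      (htm (K₀ * τ) J F B' (by positivity) s2.1).2 hq'
    have s3 : S'.St τ₁ (v.R J) (v.fam F k2) B' := by
      have h1 := s2.2 k2
      rw [← hc] at h1
      exact S'.mono hτa h1
    have h1 := hex (v.R J) hJ1 (v.fam F k2) B' s3 V z₁ z₁' hcl
    refine ⟨B', hB'B, hB'0, ?_⟩
    have h2 : CH (Pool.Agent.H49.Ent.cond F.p B' True)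
        (fun ω (j : Fin n) => (v.fam F k2).X (v.R J) ω (ε j))
        (fun ω => (z₁' (slam (v.fam F k2) ⌊w * (v.R J : ℝ)⌋₊ ω), (v.fam F k2).W ω)) =
        CH (Pool.Agent.H49.Ent.cond F.p B' True)
        (fun ω (j : Fin n) => (v.fam F k2).X (v.R J) ω (ε j))
        (fun ω => (z' (slam F ⌊v.tm w * J⌋₊ ω), (v.fam F k2).W ω)) := by
      have hsup : ∀ ω, 0 < Pool.Agent.H49.Ent.cond F.p B' True ω → B' ω := fun ω hω =>
        of_eq_true ((cond_pos_iff F.isLaw.nonneg B' True ω).1 hω).2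
      refine CH_congr hq'.nonneg (fun _ _ _ _ h => (Prod.ext_iff.mp h).1)
        (fun _ _ _ _ h => (Prod.ext_iff.mp h).1) ?_ ?_
      · intro ω ω' a b h
        have a1 := Prod.ext_iff.mp h
        refine Prod.ext ?_ a1.2
        show z' (slam F ⌊v.tm w * J⌋₊ ω) = z' (slam F ⌊v.tm w * J⌋₊ ω')
        rw [← hval ω (hsup ω a), ← hval ω' (hsup ω' b)]
        exact a1.1
      · intro ω ω' a b h
        have a1 := Prod.ext_iff.mp h
        refine Prod.ext ?_ a1.2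
        show z₁' (slam (v.fam F k2) ⌊w * (v.R J : ℝ)⌋₊ ω) =
          z₁' (slam (v.fam F k2) ⌊w * (v.R J : ℝ)⌋₊ ω')
        have a2 : z₁' (slam (v.fam F k2) ⌊w * (v.R J : ℝ)⌋₊ ω) =
          z' (slam F ⌊v.tm w * J⌋₊ ω) := hval ω (hsup ω a)
        have a3 : z₁' (slam (v.fam F k2) ⌊w * (v.R J : ℝ)⌋₊ ω') =
          z' (slam F ⌊v.tm w * J⌋₊ ω') := hval ω' (hsup ω' b)
        rw [a2, a3]
        exact a1.1
    have h3 := transfer F k2 (v.y J F) (z' := z') k1 (v.line J F) hq' t2 f1 ε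
    have h4 : (X - ρ / 4) * Real.log 2 * (v.R J : ℝ) ≤
        CH (Pool.Agent.H49.Ent.cond F.p B' True)
        (fun ω (j : Fin n) => (v.fam F k2).X (v.R J) ω (ε j))
        (fun ω => (z' (slam F ⌊v.tm w * J⌋₊ ω), (v.fam F k2).W ω)) := by
      rw [← h2]
      exact h1
    have h5 : (X - ρ / 4) * Real.log 2 * (c * J) ≤ (X - ρ / 4) * Real.log 2 * (v.R J : ℝ) := by
      refine mul_le_mul_of_nonneg_left ?_ (mul_nonneg (by linarith) hl2.le)
      have := k3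
      rw [one_div, ← div_eq_inv_mul, le_div_iff₀ hc0] at this
      linarith
    have h6 : CH (Pool.Agent.H49.Ent.cond F.p B' True)
        (fun ω (j : Fin n) => (v.fam F k2).X (v.R J) ω (ε j))
        (fun ω => (z' (slam F ⌊v.tm w * J⌋₊ ω), (v.fam F k2).W ω)) ≤
      CH (Pool.Agent.H49.Ent.cond F.p B' True) (fun ω (j : Fin n) => F.X J ω (ε j))
        (fun ω => (z' (slam F ⌊v.tm w * J⌋₊ ω), F.W ω)) + n * k99 +
        C₀ * (K₀ * τ) * J := h3
    rw [hE]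
    have h7 : C₀ * (K₀ * τ) * (J : ℝ) ≤ ρ * Real.log 2 / 8 * J :=
      mul_le_mul_of_nonneg_right hτb hJ0
    have h8 : (X - ρ / 4) * Real.log 2 * (c * J) =
        (c * X) * Real.log 2 * J - c * (ρ / 4 * Real.log 2 * J) := by ring
    have h9 : c * (ρ / 4 * Real.log 2 * J) ≤ ρ / 4 * Real.log 2 * J := by
      have : 0 ≤ ρ / 4 * Real.log 2 * J := by positivity
      nlinarith
    have h10 : (c * X - ρ / 2) * Real.log 2 * J =
        (c * X) * Real.log 2 * J - ρ / 4 * Real.log 2 * J - ρ * Real.log 2 / 8 * J -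
          ρ * Real.log 2 / 8 * J := by ring
    rw [h10]
    linarith)
  refine le_trans ?_ main
  rw [hE]
  have h1 : δ * ((c * X - ρ / 2) * Real.log 2 * J) ≤ ρ / 2 * (Real.log 2 * J) := by
    have h2 : c * X - ρ / 2 ≤ n := by
      have : c * X ≤ X := by
        have hX0 : 0 ≤ X := by linarith
        nlinarith
      linarith
    have h3 : (c * X - ρ / 2) * (Real.log 2 * J) ≤ n * (Real.log 2 * J) :=
      mul_le_mul_of_nonneg_right h2 (by positivity)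
    calc δ * ((c * X - ρ / 2) * Real.log 2 * J) = δ * ((c * X - ρ / 2) * (Real.log 2 * J)) := by
          ring
      _ ≤ δ * (n * (Real.log 2 * J)) := mul_le_mul_of_nonneg_left h3 hδ0.le
      _ = δ * n * (Real.log 2 * J) := by ring
      _ ≤ _ := mul_le_mul_of_nonneg_right hδn (by positivity)
  have e1 : (c * X - ρ) * Real.log 2 * J = (c * X - ρ / 2) * Real.log 2 * J -
    ρ / 2 * (Real.log 2 * J) := by ring
  have e2 : (1 - δ) * ((c * X - ρ / 2) * Real.log 2 * J) = (c * X - ρ / 2) * Real.log 2 * J -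
    δ * ((c * X - ρ / 2) * Real.log 2 * J) := by ring
  rw [e1, e2]
  linarith

end Pool.REX
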