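import Pool.Agent.H72.REC.StmV
import Pool.Agent.H72.REC.Exa

/-!
# Exactness behind records, with some of the coordinates: proof
-/

set_option autoImplicit false

namespace Pool.REX

open Finset Real
open Pool.Agent.H49.Ent Pool.Agent.H32.Dense Pool.STK Pool.KA Pool.KSAT Pool.K2S Pool.PB Pool.S6C
open Pool.GEN

variable {m n J : ℕ}

/-! ### Geometry -/

section

variable (F : Fam m J) {B P : ℕ} (hP : P ≤ J - B) {κ : Type} (y : F.Ω → κ)

/-- The zoom of some coordinates. -/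
noncomputable def zmV (ε : Fin n → Fin m) : Fam n (J - B - P) :=
  (prj ((F.win B).cnd y) ε).tub P hP

theorem Vz.famV_eq (v : Vz m) (ε : Fin n → Fin m) (F : Fam m J) (h : v.P J ≤ J - v.B J) :
    v.famV ε F h = zmV F h (v.y J F) ε := rfl

theorem zmV_x (ε : Fin n → Fin m) (ω : F.Ω) (j : Fin n) :
    (zmV F hP y ε).x ω j = (zm F B P hP y).x ω (ε j) := rfl

theorem zmV_T (ε : Fin n → Fin m) (ω : F.Ω) : (zmV F hP y ε).T ω = (zm F B P hP y).T ω := rfl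

theorem zmV_Z (ε : Fin n → Fin m) (ω : F.Ω) : (zmV F hP y ε).Z ω =
    ((fun j => ((F.win B).L P ω).1 (ε j), fun j => ((F.win B).L P ω).2 (ε j)),
      (y ω, F.c B ω)) := rfl

/-- One position in the zoom and in the family vary together. -/
theorem zm_diffk (hB : B ≤ J) {ω ω' : F.Ω} (hT : F.T ω = F.T ω') {k : Fin m}
    (h1 : ((F.win B).L P ω).1 k = ((F.win B).L P ω').1 k)
    (h2 : ((F.win B).L P ω).2 k = ((F.win B).L P ω').2 k)
    (hx : fl B (F.x1 B ω) k = fl B (F.x1 B ω') k) :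
    |((2 : ℝ) ^ (J - B - P) * (zm F B P hP y).x ω k -
        2 ^ (J - B - P) * (zm F B P hP y).x ω' k) -
      (2 ^ J * F.x ω k - 2 ^ J * F.x ω' k)| ≤ 2 := by
  have a1 := zm_close F hP y hB ω k
  have a2 := zm_close F hP y hB ω' k
  have ht : (F.win B).t ω = (F.win B).t ω' := by
    show ((F.T ω % 2 ^ (J - B) : ℕ) : ℝ) / 2 ^ (J - B) =
      ((F.T ω' % 2 ^ (J - B) : ℕ) : ℝ) / 2 ^ (J - B)
    rw [hT]
  rw [h1, h2, hx, ht] at a1
  have e1 : ∀ a b c d : ℝ, a - (b - c - d) = (a - b) + (c + d) := fun a b c d => by ring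
  rw [e1] at a1 a2
  rw [abs_le] at a1 a2 ⊢
  constructor <;> linarith [a1.1, a1.2, a2.1, a2.2]

/-- One position in the zoom, from the position. -/
theorem near1k (hB : B ≤ J) {ω ω' : F.Ω} (hT : F.T ω = F.T ω') {k : Fin m}
    (h1 : ((F.win B).L P ω).1 k = ((F.win B).L P ω').1 k)
    (h2 : ((F.win B).L P ω).2 k = ((F.win B).L P ω').2 k)
    (hx : fl B (F.x1 B ω) k = fl B (F.x1 B ω') k) (hX : F.X J ω k = F.X J ω' k) :
    |(zm F B P hP y).X (J - B - P) ω k - (zm F B P hP y).X (J - B - P) ω' k| ≤ 49 := by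
  have h1 := zm_diffk F hP y hB hT h1 h2 hx
  have hX' : ⌊(2 : ℝ) ^ J * F.x ω k⌋ = ⌊(2 : ℝ) ^ J * F.x ω' k⌋ := hX
  have a1 := Int.floor_le ((2 : ℝ) ^ J * F.x ω k)
  have a2 := Int.lt_floor_add_one ((2 : ℝ) ^ J * F.x ω k)
  have b1 := Int.floor_le ((2 : ℝ) ^ J * F.x ω' k)
  have b2 := Int.lt_floor_add_one ((2 : ℝ) ^ J * F.x ω' k)
  have g1 := Int.floor_le ((2 : ℝ) ^ (J - B - P) * (zm F B P hP y).x ω k)
  have g2 := Int.lt_floor_add_one ((2 : ℝ) ^ (J - B - P) * (zm F B P hP y).x ω k)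
  have g3 := Int.floor_le ((2 : ℝ) ^ (J - B - P) * (zm F B P hP y).x ω' k)
  have g4 := Int.lt_floor_add_one ((2 : ℝ) ^ (J - B - P) * (zm F B P hP y).x ω' k)
  rw [hX'] at a1 a2
  rw [abs_le] at h1
  change |⌊(2 : ℝ) ^ (J - B - P) * (zm F B P hP y).x ω k⌋ -
    ⌊(2 : ℝ) ^ (J - B - P) * (zm F B P hP y).x ω' k⌋| ≤ 49
  have key : |((⌊(2 : ℝ) ^ (J - B - P) * (zm F B P hP y).x ω k⌋ -
      ⌊(2 : ℝ) ^ (J - B - P) * (zm F B P hP y).x ω' k⌋ : ℤ) : ℝ)| ≤ 49 := by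
    rw [abs_le]
    push_cast
    constructor <;> linarith [h1.1, h1.2]
  exact_mod_cast key

/-- One position, from the position in the zoom. -/
theorem near2k (hB : B ≤ J) {ω ω' : F.Ω} (hT : F.T ω = F.T ω') {k : Fin m}
    (h1 : ((F.win B).L P ω).1 k = ((F.win B).L P ω').1 k)
    (h2 : ((F.win B).L P ω).2 k = ((F.win B).L P ω').2 k)
    (hx : fl B (F.x1 B ω) k = fl B (F.x1 B ω') k)
    (hX : (zm F B P hP y).X (J - B - P) ω k = (zm F B P hP y).X (J - B - P) ω' k) :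
    |F.X J ω k - F.X J ω' k| ≤ 49 := by
  have h1 := zm_diffk F hP y hB hT h1 h2 hx
  have hX' : ⌊(2 : ℝ) ^ (J - B - P) * (zm F B P hP y).x ω k⌋ =
    ⌊(2 : ℝ) ^ (J - B - P) * (zm F B P hP y).x ω' k⌋ := hX
  have a1 := Int.floor_le ((2 : ℝ) ^ J * F.x ω k)
  have a2 := Int.lt_floor_add_one ((2 : ℝ) ^ J * F.x ω k)
  have b1 := Int.floor_le ((2 : ℝ) ^ J * F.x ω' k)
  have b2 := Int.lt_floor_add_one ((2 : ℝ) ^ J * F.x ω' k)
  have g1 := Int.floor_le ((2 : ℝ) ^ (J - B - P) * (zm F B P hP y).x ω k)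
  have g2 := Int.lt_floor_add_one ((2 : ℝ) ^ (J - B - P) * (zm F B P hP y).x ω k)
  have g3 := Int.floor_le ((2 : ℝ) ^ (J - B - P) * (zm F B P hP y).x ω' k)
  have g4 := Int.lt_floor_add_one ((2 : ℝ) ^ (J - B - P) * (zm F B P hP y).x ω' k)
  rw [hX'] at g1 g2
  rw [abs_le] at h1
  change |⌊(2 : ℝ) ^ J * F.x ω k⌋ - ⌊(2 : ℝ) ^ J * F.x ω' k⌋| ≤ 49
  have key : |((⌊(2 : ℝ) ^ J * F.x ω k⌋ - ⌊(2 : ℝ) ^ J * F.x ω' k⌋ : ℤ) : ℝ)| ≤ 49 := by
    rw [abs_le]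
    push_cast
    constructor <;> linarith [h1.1, h1.2]
  exact_mod_cast key

/-- The time, the side information, the visible variable and the cells, from the zoom and the last
digits of the time. -/
theorem of_zmV (ε : Fin n → Fin m) {ω ω' : F.Ω} (h1 : F.T ω % 2 ^ P = F.T ω' % 2 ^ P)
    (h2 : (zmV F hP y ε).W ω = (zmV F hP y ε).W ω') :
    F.T ω = F.T ω' ∧ F.Z ω = F.Z ω' ∧ y ω = y ω' ∧
      (∀ j, ((F.win B).L P ω).1 (ε j) = ((F.win B).L P ω').1 (ε j)) ∧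
      (∀ j, ((F.win B).L P ω).2 (ε j) = ((F.win B).L P ω').2 (ε j)) ∧
      fl B (F.x1 B ω) = fl B (F.x1 B ω') := by
  have hT : (zmV F hP y ε).T ω = (zmV F hP y ε).T ω' := (Prod.ext_iff.mp h2).1
  have hZ : (zmV F hP y ε).Z ω = (zmV F hP y ε).Z ω' := (Prod.ext_iff.mp h2).2
  rw [zmV_Z, zmV_Z] at hZ
  have hL := Prod.ext_iff.mp (Prod.ext_iff.mp hZ).1
  have hyc := Prod.ext_iff.mp (Prod.ext_iff.mp hZ).2
  have hc := Prod.ext_iff.mp hyc.2
  have hc1 := Prod.ext_iff.mp hc.1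
  rw [zmV_T, zmV_T, zm_T, zm_T] at hT
  exact ⟨T_of F hc1.1 hT h1 hP, hc.2, hyc.1, fun j => congrFun hL.1 j,
    fun j => congrFun hL.2 j, hc1.2⟩

theorem wV_det (hB : B ≤ J) (hy : ∀ ω ω' : F.Ω, slam F B ω = slam F B ω' → y ω = y ω')
    (ε : Fin n → Fin m) {ω ω' : F.Ω}
    (h : (F.T ω / 2 ^ P, (F.l ω, F.Z ω)) = (F.T ω' / 2 ^ P, (F.l ω', F.Z ω'))) :
    (zmV F hP y ε).X (J - B - P) ω = (zmV F hP y ε).X (J - B - P) ω' ∧
      (zmV F hP y ε).W ω = (zmV F hP y ε).W ω' := by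
  have h1 := ptr_det F hP y hB hy (J - B - P) h
  have h2 : (zm F B P hP y).X (J - B - P) ω = (zm F B P hP y).X (J - B - P) ω' :=
    (Prod.ext_iff.mp h1).1
  have h3 : (zm F B P hP y).W ω = (zm F B P hP y).W ω' := (Prod.ext_iff.mp h1).2
  have h4 : (zm F B P hP y).T ω = (zm F B P hP y).T ω' := (Prod.ext_iff.mp h3).1
  have h5 : (zm F B P hP y).Z ω = (zm F B P hP y).Z ω' := (Prod.ext_iff.mp h3).2
  rw [zm_Z, zm_Z] at h5
  have h6 := Prod.ext_iff.mp h5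
  refine ⟨?_, Prod.ext h4 ?_⟩
  · funext j
    exact congrFun h2 (ε j)
  · show (zmV F hP y ε).Z ω = (zmV F hP y ε).Z ω'
    rw [zmV_Z, zmV_Z]
    have h7 := Prod.ext_iff.mp h6.1
    have h8 : (y ω, F.c B ω) = (y ω', F.c B ω') := h6.2
    rw [h8, h7.1, h7.2]

variable {q : F.Ω → ℝ} {e : ℝ}

/-- **Entropies of positions in the zoom of some coordinates.** -/
theorem transferV (hB : B ≤ J) (hy : ∀ ω ω' : F.Ω, slam F B ω = slam F B ω' → y ω = y ω')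
    (hq : IsLaw q) (hT : TmQ F q e) (hPJ : P ≤ J) (ε : Fin n → Fin m) :
    CH q ((zmV F hP y ε).X (J - B - P)) (zmV F hP y ε).W ≤
    CH q (fun ω (j : Fin n) => F.X J ω (ε j)) (fun ω => (y ω, F.W ω)) + n * k99 + e := by
  have h0 := hq.nonneg
  have h1 := indep F hq (P := P) hPJ hT ((zmV F hP y ε).X (J - B - P)) (zmV F hP y ε).W
    (fun ω ω' _ _ h => (wV_det F hP y hB hy ε h).1) (fun ω ω' _ _ h => (wV_det F hP y hB hy ε h).2)
  have h2 := CH_le_add h0 ((zmV F hP y ε).X (J - B - P))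
    (fun ω (j : Fin n) => F.X J ω (ε j)) (fun ω => (F.T ω % 2 ^ P, (zmV F hP y ε).W ω))
  have h3 : CH q (fun ω (j : Fin n) => F.X J ω (ε j))
      (fun ω => (F.T ω % 2 ^ P, (zmV F hP y ε).W ω)) ≤
      CH q (fun ω (j : Fin n) => F.X J ω (ε j)) (fun ω => (y ω, F.W ω)) := by
    refine CH_mono_cond h0 fun ω ω' _ _ h => ?_
    have a1 := Prod.ext_iff.mp h
    obtain ⟨b1, b2, b3, -, -, -⟩ := of_zmV F hP y ε a1.1 a1.2
    exact Prod.ext b3 (Prod.ext b1 b2)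
  have h4 : CH q ((zmV F hP y ε).X (J - B - P))
      (fun ω => ((fun j : Fin n => F.X J ω (ε j)), (F.T ω % 2 ^ P, (zmV F hP y ε).W ω))) ≤
      n * k99 := by
    have h5 := CH_le_vec h0 hq.sum_one ((zmV F hP y ε).X (J - B - P))
      (fun ω => ((fun j : Fin n => F.X J ω (ε j)), (F.T ω % 2 ^ P, (zmV F hP y ε).W ω)))
      (fun _ => 49) (fun ω ω' _ _ h k => by
        have a1 := Prod.ext_iff.mp h
        have a2 := Prod.ext_iff.mp a1.2
        obtain ⟨b1, -, -, b4, b5, b6⟩ := of_zmV F hP y ε a2.1 a2.2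
        exact_mod_cast near1k F hP y hB b1 (b4 k) (b5 k) (congrFun b6 (ε k)) (congrFun a1.1 k))
    rwa [Ex_const hq.sum_one] at h5
  linarith

end

/-! ### The class of the zooms -/

/-- The zooms. -/
theorem recV_cases {S : PCl m} {v : Vz m} {ε : Fin n → Fin m} {τ : ℝ} {Φ : Stat n}
    (h : ∀ (J : ℕ) (F : Fam m J) (A : F.Ω → Prop) (hP : v.P J ≤ J - v.B J), S.St τ J F A →
      Φ (v.R J) (v.famV ε F hP) A) {J : ℕ} {F : Fam n J} {A : F.Ω → Prop}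
    (hA : (RecV S v ε).St τ J F A) : Φ J F A := by
  have key : ∀ (J : ℕ) (F : Fam n J) (A : F.Ω → Prop) (hq : ⌊v.p * (J : ℝ)⌋₊ ≤ J),
      WyVSt S v ε τ J F A → Φ (J - ⌊v.p * (J : ℝ)⌋₊) (F.tub _ hq) A := by
    rintro J F A hq ⟨J, F, A, hS⟩
    exact h J F A hq hS
  obtain ⟨J, F, A, hq, hS⟩ := hA
  exact key J F A hq hS

theorem recV_mk {S : PCl m} {v : Vz m} {ε : Fin n → Fin m} {τ : ℝ} {F : Fam m J}
    {A : F.Ω → Prop} (h : S.St τ J F A) (hP : v.P J ≤ J - v.B J) :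
    (RecV S v ε).St τ (v.R J) (v.famV ε F hP) A :=
  TubSt.mk (J - v.B J) (v.winV ε F) A hP (WyVSt.mk J F A h)

/-- The class of the zooms is nonempty. -/
theorem recV_ne {S : PCl m} (hS : S.Ne) (v : Vz m) (ε : Fin n → Fin m) : (RecV S v ε).Ne := by
  intro τ hτ J₁
  have hb1 := v.b1
  have hp1 := v.p1
  have hc : 0 < (1 - v.b) * (1 - v.p) := mul_pos (by linarith) (by linarith)
  obtain ⟨J₂, hJ₂⟩ := exists_nat_ge (1 / ((1 - v.b) * (1 - v.p)) * J₁)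
  obtain ⟨J, hJ, F, A, hA⟩ := hS τ hτ J₂
  obtain ⟨h1, h2, h3⟩ := v.floor_le J
  refine ⟨v.R J, ?_, v.famV ε F h2, A, recV_mk hA h2⟩
  have h4 : (J₂ : ℝ) ≤ J := by exact_mod_cast hJ
  have h5 : 1 / ((1 - v.b) * (1 - v.p)) * (J₁ : ℝ) ≤ 1 / ((1 - v.b) * (1 - v.p)) * v.R J := by
    linarith
  have h6 : (J₁ : ℝ) ≤ v.R J := le_of_mul_le_mul_left h5 (by positivity)
  exact_mod_cast h6

/-- The time of some coordinates. -/
theorem prj_tm (F : Fam m J) (ε : Fin n → Fin m) {q : F.Ω → ℝ} (hq : IsLaw q) {e : ℝ}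
    (hT : TmQ F q e) : TmQ (prj F ε) q e := by
  unfold TmQ at hT ⊢
  refine hT.trans (CH_mono_cond hq.nonneg fun ω ω' _ _ h => ?_)
  have a1 := Prod.ext_iff.mp h
  have hl := Prod.ext_iff.mp a1.1
  have hu : F.u ω = F.u ω' := hl.1
  have hd : F.d ω = F.d ω' := hl.2
  have hZ : F.Z ω = F.Z ω' := a1.2
  refine Prod.ext (Prod.ext ?_ ?_) hZ
  · show (fun j => F.u ω (ε j)) = fun j => F.u ω' (ε j)
    rw [hu]
  · show (fun j => F.d ω (ε j)) = fun j => F.d ω' (ε j)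
    rw [hd]

/-- The time in the windows. -/
theorem winV_tm (v : Vz m) (ε : Fin n → Fin m) (F : Fam m J) {q : F.Ω → ℝ} (hq : IsLaw q)
    {e : ℝ} (hT : TmQ F q e) : TmQ (v.winV ε F) q e :=
  prj_tm (v.win F) ε hq (win_tm v F hq hT)

/-- The time in the zooms. -/
theorem famV_tm (v : Vz m) (ε : Fin n → Fin m) (F : Fam m J) (hP : v.P J ≤ J - v.B J)
    {q : F.Ω → ℝ} (hq : IsLaw q) {e : ℝ} (hT : TmQ F q e) : TmQ (v.famV ε F hP) q e := by
  have h1 := winV_tm v ε F hq hT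
  obtain ⟨G, hG⟩ : ∃ G : Fam n (J - v.B J), G = { v.winV ε F with p := q, isLaw := hq } :=
    ⟨_, rfl⟩
  have hGT : G.Tm e := by
    rw [hG]
    exact h1
  have h2 := ((tub_thm n).choose_spec.2 (J - v.B J) G (v.P J) hP e hGT).1
  subst hG
  exact h2

/-- The events and the times in the zooms. -/
theorem recV_tm {S : PCl m} {C₀ : ℝ} (hC : 0 ≤ C₀) (h : TmC S C₀) (v : Vz m)
    (ε : Fin n → Fin m) : TmC (RecV S v ε) (C₀ * (1 / ((1 - v.b) * (1 - v.p)))) := by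
  intro τ J F A hτ hA
  refine recV_cases (S := S) (v := v) (ε := ε) (τ := τ) (Φ := fun J F A => 0 < Pe F.p A ∧
    ∀ h : IsLaw (Pool.Agent.H49.Ent.cond F.p A True),
      (F.res A True h).Tm (C₀ * (1 / ((1 - v.b) * (1 - v.p))) * τ * J)) ?_ hA
  intro J F A hP hS
  obtain ⟨h1, h2⟩ := h τ J F A hτ hS
  refine ⟨h1, fun hl => ?_⟩
  have h3 := h2 hl
  have h4 : TmQ F (Pool.Agent.H49.Ent.cond F.p A True) (C₀ * τ * J) := h3
  have h5 := famV_tm v ε F hP hl h4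
  have h6 := (v.floor_le J).2.2
  unfold TmQ at h5
  unfold Fam.Tm
  have h7 : C₀ * τ * (J : ℝ) ≤ C₀ * (1 / ((1 - v.b) * (1 - v.p))) * τ * (v.R J : ℝ) := by
    calc C₀ * τ * (J : ℝ) ≤ C₀ * τ * (1 / ((1 - v.b) * (1 - v.p)) * (v.R J : ℝ)) :=
          mul_le_mul_of_nonneg_left h6 (mul_nonneg hC hτ.le)
      _ = _ := by ring
  refine le_trans ?_ h5
  linarith

/-! ### Exactness -/

/-- A permutation of the coordinates, and no closed function. -/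
theorem perm_le (G : Fam n J) {q : G.Ω → ℝ} (hq : IsLaw q) (σ : Fin n → Fin n) :
    CH q (fun ω (j : Fin n) => G.X J ω (σ j)) (fun ω => (((), G.W ω) : Unit × _)) ≤
      CH q (G.X J) G.W := by
  have h0 := hq.nonneg
  have h1 : CH q (fun ω (j : Fin n) => G.X J ω (σ j)) (fun ω => (((), G.W ω) : Unit × _)) ≤
      CH q (fun ω (j : Fin n) => G.X J ω (σ j)) G.W := by
    refine CH_mono_cond h0 ?_
    intro ω ω' _ _ h
    exact (Prod.ext_iff.mp h).2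
  have h2 : CH q (fun ω (j : Fin n) => G.X J ω (σ j)) G.W ≤ CH q (G.X J) G.W := by
    refine CH_mono_left h0 ?_
    intro ω ω' _ _ h
    have a1 := Prod.ext_iff.mp h
    funext j
    exact congrFun a1.1 (σ j)
  exact h1.trans h2

/-- **Exactness behind records.** -/
theorem rexv (n : ℕ) : RexV n := by
  classical
  intro hF m S C₀ hC₀ htm v ε S' hne hsub L hL N al g₀ hal hg₀ hN σ hσ hact w hw ρ hρ
  obtain ⟨hw0, hw1, hgr, hct⟩ := hw
  have hb0 := v.b0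
  have hb1 := v.b1
  have hp0 := v.p0
  have hp1 := v.p1
  obtain ⟨c, hc⟩ : ∃ c, c = (1 - v.b) * (1 - v.p) := ⟨_, rfl⟩
  have hc0 : 0 < c := by rw [hc]; exact mul_pos (by linarith) (by linarith)
  have hc1 : c ≤ 1 := by
    rw [hc]
    exact mul_le_one₀ (by linarith) (by linarith) (by linarith)
  have hl2 : 0 < Real.log 2 := Real.log_pos one_lt_two
  have hl99 := k99_nonneg
  have htm' : TmC S' (C₀ * (1 / c)) := by
    intro τ J F A hτ hA
    rw [hc]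
    exact recV_tm hC₀ htm v ε τ J F A hτ (hsub τ J F A hA)
  have hpos' : Bas S' (fun _ F A => 0 < Pe F.p A) :=
    ⟨1, one_pos, 0, fun J _ F A hA => (htm' 1 J F A one_pos hA).1⟩
  obtain ⟨X, hX⟩ : ∃ X, X = ∑ j : Fin n, (1 - vs L σ w (j + 1)) := ⟨_, rfl⟩
  have hsum : ∑ j : Fin n, (1 - v.sc (vs L σ w (j + 1))) = c * X := by
    rw [hX, Finset.mul_sum]
    refine Finset.sum_congr rfl fun j _ => ?_
    rw [one_sub_sc, hc]
  rw [hsum]
  -- the trivial case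
  by_cases htriv : c * X - ρ ≤ 0
  · refine ⟨1, one_pos, 0, fun J _ F A hA => ?_⟩
    have hJ : (0 : ℝ) ≤ J := Nat.cast_nonneg J
    have h1 := (htm 1 J F A one_pos hA.1).1
    refine le_trans ?_ (CH_nonneg (isLaw_cond F.isLaw h1).nonneg _ _)
    exact mul_nonpos_of_nonpos_of_nonneg (mul_nonpos_of_nonpos_of_nonneg htriv hl2.le) hJ
  push Not at htriv
  have hXρ : ρ < X := by
    have hX0 : 0 < X := by
      by_contra h
      push Not at h
      have := mul_nonpos_of_nonneg_of_nonpos hc0.le h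
      linarith
    have : c * X ≤ X := by nlinarith
    linarith
  obtain ⟨τ₁, hτ₁, J₁, hex⟩ := vst_exa hF hne (mul_nonneg hC₀ (by positivity)) htm' hL hal hg₀ hN
    hpos' hσ hact hw0 hw1 hgr hct (ρ := ρ / 4) (by positivity)
  rw [← hX] at hex
  obtain ⟨τ, hτ⟩ : ∃ τ, τ = min (c * τ₁) (ρ * Real.log 2 / (4 * (C₀ + 1))) := ⟨_, rfl⟩
  have hτ0 : 0 < τ := by
    rw [hτ]
    exact lt_min (by positivity) (by positivity)
  have hτa : 1 / c * τ ≤ τ₁ := by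
    have h1 : τ ≤ c * τ₁ := by rw [hτ]; exact min_le_left _ _
    rw [one_div, ← div_eq_inv_mul, div_le_iff₀ hc0]
    linarith
  have hτb : C₀ * τ ≤ ρ * Real.log 2 / 4 := by
    have h1 : τ ≤ ρ * Real.log 2 / (4 * (C₀ + 1)) := by rw [hτ]; exact min_le_right _ _
    rw [le_div_iff₀ (by positivity)] at h1
    nlinarith
  obtain ⟨J₃, hJ₃⟩ := exists_nat_ge (1 / c * J₁)
  obtain ⟨J₅, hJ₅⟩ := exists_nat_ge (n * k99 / (ρ * Real.log 2 / 4))
  refine ⟨τ, hτ0, max J₃ J₅, fun J hJ F A hA => ?_⟩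
  have j3 : (J₃ : ℝ) ≤ J := by exact_mod_cast (le_max_left _ _).trans hJ
  have j5 : (J₅ : ℝ) ≤ J := by exact_mod_cast (le_max_right _ _).trans hJ
  have hJ0 : (0 : ℝ) ≤ J := Nat.cast_nonneg J
  obtain ⟨k1, k2, k3⟩ := v.floor_le J
  rw [← hc] at k3
  have g2 : n * k99 ≤ ρ * Real.log 2 / 4 * J := by
    have := hJ₅.trans j5
    rw [div_le_iff₀ (by positivity)] at this
    linarith
  have hApos := (htm τ J F A hτ0 hA.1).1
  have hJ1 : J₁ ≤ v.R J := by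
    have h1 : 1 / c * (J₁ : ℝ) ≤ 1 / c * v.R J := hJ₃.trans (j3.trans k3)
    have h2 : (J₁ : ℝ) ≤ v.R J := le_of_mul_le_mul_left h1 (by positivity)
    exact_mod_cast h2
  have hPJ : v.P J ≤ J := by omega
  have hq := isLaw_cond F.isLaw hApos
  have t1 : TmQ F (Pool.Agent.H49.Ent.cond F.p A True) (C₀ * τ * J) :=
    (htm τ J F A hτ0 hA.1).2 hq
  have s3 : S'.St τ₁ (v.R J) (v.famV ε F k2) A := by
    have h1 := hA.2 k2
    rw [← hc] at h1
    exact S'.mono hτa h1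
  have h1 := hex (v.R J) hJ1 (v.famV ε F k2) A s3 Unit (fun _ => ()) (fun _ => ())
    (fun _ _ => rfl)
  have h3 : CH (Pool.Agent.H49.Ent.cond F.p A True) ((v.famV ε F k2).X (v.R J))
      (v.famV ε F k2).W ≤ CH (Pool.Agent.H49.Ent.cond F.p A True)
      (fun ω (j : Fin n) => F.X J ω (ε j)) (fun ω => (v.y J F ω, F.W ω)) + n * k99 +
        C₀ * τ * J :=
    transferV F k2 (v.y J F) k1 (v.line J F) hq t1 hPJ ε
  have h4 : (X - ρ / 4) * Real.log 2 * (v.R J : ℝ) ≤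
      CH (Pool.Agent.H49.Ent.cond F.p A True) ((v.famV ε F k2).X (v.R J))
        (v.famV ε F k2).W := h1.trans (perm_le (v.famV ε F k2) hq σ)
  have h5 : (X - ρ / 4) * Real.log 2 * (c * J) ≤ (X - ρ / 4) * Real.log 2 * (v.R J : ℝ) := by
    refine mul_le_mul_of_nonneg_left ?_ (mul_nonneg (by linarith) hl2.le)
    have := k3
    rw [one_div, ← div_eq_inv_mul, le_div_iff₀ hc0] at this
    linarith
  have h7 : C₀ * τ * (J : ℝ) ≤ ρ * Real.log 2 / 4 * J := mul_le_mul_of_nonneg_right hτb hJ0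
  have h8 : (X - ρ / 4) * Real.log 2 * (c * J) =
      (c * X) * Real.log 2 * J - c * (ρ / 4 * Real.log 2 * J) := by ring
  have h9 : c * (ρ / 4 * Real.log 2 * J) ≤ ρ / 4 * Real.log 2 * J := by
    have : 0 ≤ ρ / 4 * Real.log 2 * J := by positivity
    nlinarith
  have h10 : (c * X - ρ) * Real.log 2 * J =
      (c * X) * Real.log 2 * J - ρ / 4 * Real.log 2 * J - ρ * Real.log 2 / 4 * J -
        ρ * Real.log 2 / 4 * J - ρ * Real.log 2 / 4 * J := by ring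
  have h11 : 0 ≤ ρ * Real.log 2 / 4 * J := by positivity
  show (c * X - ρ) * Real.log 2 * J ≤ CH (Pool.Agent.H49.Ent.cond F.p A True)
    (fun ω (j : Fin n) => F.X J ω (ε j)) (fun ω => (v.y J F ω, F.W ω))
  rw [h10]
  linarith

end Pool.REX
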