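import Pool.Agent.H72.REC.Geo
import Pool.Agent.H75.S6C.Exh
import Pool.Agent.H78.KST.OUT

/-!
# The zoom of a family into a window and a tube: entropies

The last digits of the time are independent of everything in the zoom (`indep`). A closed function
has few bits given the point of the zoom (`few`), hence it is closed in the zoom on a large part
(`closed`). Entropies of positions in the zoom are entropies of positions (`transfer`).
-/

set_option autoImplicit false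

namespace Pool.REX

open Finset Real
open Pool.Agent.H49.Ent Pool.Agent.H32.Dense Pool.STK Pool.KA Pool.KSAT Pool.K2S Pool.PB Pool.S6C
open Pool.GEN Pool.KA.TRC

variable {m n J : ℕ}

/-- The constant of the roundings. -/
noncomputable def k99 : ℝ := Real.log (2 * 49 + 1)

theorem k99_nonneg : 0 ≤ k99 := Real.log_nonneg (by norm_num)

/-- The deficit of the time for a law. -/
def TmQ (F : Fam m J) (q : F.Ω → ℝ) (e : ℝ) : Prop :=
  (J : ℝ) * Real.log 2 - e ≤ CH q F.T (fun ω => (F.l ω, F.Z ω))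

section

variable (F : Fam m J) {q : F.Ω → ℝ} {e : ℝ}

/-- The last digits of the time are free. -/
theorem low_free (hq : IsLaw q) {P : ℕ} (hP : P ≤ J) (hT : TmQ F q e) :
    P * Real.log 2 - e ≤ CH q (fun ω => F.T ω % 2 ^ P)
      (fun ω => (F.T ω / 2 ^ P, (F.l ω, F.Z ω))) := by
  have h0 := hq.nonneg
  unfold TmQ at hT
  have h1 : CH q F.T (fun ω => (F.l ω, F.Z ω)) ≤
      CH q (fun ω => (F.T ω % 2 ^ P, F.T ω / 2 ^ P)) (fun ω => (F.l ω, F.Z ω)) := by
    refine CH_mono_left h0 fun ω ω' _ _ h => ?_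
    simp only [Prod.mk.injEq] at h
    rw [← Nat.div_add_mod (F.T ω) (2 ^ P), ← Nat.div_add_mod (F.T ω') (2 ^ P), h.1.1, h.1.2]
  have h2 := CH_chain h0 (fun ω => F.T ω % 2 ^ P) (fun ω => F.T ω / 2 ^ P)
    (fun ω => (F.l ω, F.Z ω))
  have h3 : CH q (fun ω => F.T ω / 2 ^ P) (fun ω => (F.l ω, F.Z ω)) ≤
      ((J - P : ℕ) : ℝ) * Real.log 2 := by
    refine CH_lt hq _ _ _ fun ω => ?_
    rw [Nat.div_lt_iff_lt_mul (by positivity), ← pow_add]
    have e1 : J - P + P = J := by omega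
    rw [e1]
    exact F.tim ω
  rw [Nat.cast_sub hP] at h3
  have e2 : ((J : ℝ) - P) * Real.log 2 = J * Real.log 2 - P * Real.log 2 := by ring
  linarith

/-- **The last digits of the time do not matter.** -/
theorem indep (hq : IsLaw q) {P : ℕ} (hP : P ≤ J) (hT : TmQ F q e) {S T : Type}
    (Y : F.Ω → S) (Θ : F.Ω → T)
    (hY : Det q (fun ω => (F.T ω / 2 ^ P, (F.l ω, F.Z ω))) Y)
    (hΘ : Det q (fun ω => (F.T ω / 2 ^ P, (F.l ω, F.Z ω))) Θ) :
    CH q Y Θ ≤ CH q Y (fun ω => (F.T ω % 2 ^ P, Θ ω)) + e := by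
  have h0 := hq.nonneg
  have h1 := CH_bayes h0 Y (fun ω => F.T ω % 2 ^ P) Θ
  have h2 := low_free F hq hP hT
  have h3 : CH q (fun ω => F.T ω % 2 ^ P) (fun ω => (F.T ω / 2 ^ P, (F.l ω, F.Z ω))) ≤
      CH q (fun ω => F.T ω % 2 ^ P) (fun ω => (Y ω, Θ ω)) :=
    CH_mono_cond h0 fun ω ω' a b h => Prod.ext (hY ω ω' a b h) (hΘ ω ω' a b h)
  have h4 : CH q (fun ω => F.T ω % 2 ^ P) Θ ≤ P * Real.log 2 :=
    CH_lt hq _ _ _ fun ω => Nat.mod_lt _ (by positivity)
  linarith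

variable {B P : ℕ} (hP : P ≤ J - B) {κ : Type} (y : F.Ω → κ)

/-- The first digits of the time from all but the last digits. -/
theorem slam_det {W : ℕ} (hW : W + P ≤ J) {ω ω' : F.Ω}
    (h : (F.T ω / 2 ^ P, (F.l ω, F.Z ω)) = (F.T ω' / 2 ^ P, (F.l ω', F.Z ω'))) :
    slam F W ω = slam F W ω' := by
  simp only [Prod.mk.injEq] at h
  obtain ⟨h1, h2, h3⟩ := h
  refine Prod.ext h2 (Prod.ext h3 ?_)
  show F.T1 W ω = F.T1 W ω'
  rw [T1_of_div F hW ω, T1_of_div F hW ω', h1]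

theorem ptr_det (hB : B ≤ J) (hy : ∀ ω ω' : F.Ω, slam F B ω = slam F B ω' → y ω = y ω') (j : ℕ)
    {ω ω' : F.Ω} (h : (F.T ω / 2 ^ P, (F.l ω, F.Z ω)) = (F.T ω' / 2 ^ P, (F.l ω', F.Z ω'))) :
    ptr (zm F B P hP y) j ω = ptr (zm F B P hP y) j ω' := by
  simp only [Prod.mk.injEq] at h
  obtain ⟨h1, h2, h3⟩ := h
  obtain ⟨e1, e2⟩ := zm_det F hP y hB hy h2 h3 h1
  refine Prod.ext ?_ e2
  show fl j ((zm F B P hP y).x ω) = fl j ((zm F B P hP y).x ω')
  rw [e1]

/-- The time, the side information and the digits of the direction, from the zoom and the last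
digits of the time. -/
theorem of_zm {ω ω' : F.Ω} (h1 : F.T ω % 2 ^ P = F.T ω' % 2 ^ P)
    (h2 : (zm F B P hP y).W ω = (zm F B P hP y).W ω') :
    F.T ω = F.T ω' ∧ F.Z ω = F.Z ω' ∧ y ω = y ω' ∧ F.D P ω = F.D P ω' ∧
      (zm F B P hP y).Z ω = (zm F B P hP y).Z ω' := by
  have hT : (zm F B P hP y).T ω = (zm F B P hP y).T ω' := (Prod.ext_iff.mp h2).1
  have hZ : (zm F B P hP y).Z ω = (zm F B P hP y).Z ω' := (Prod.ext_iff.mp h2).2
  have hZ' := hZ
  rw [zm_Z, zm_Z] at hZ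
  have hL := Prod.ext_iff.mp (Prod.ext_iff.mp hZ).1
  have hyc := Prod.ext_iff.mp (Prod.ext_iff.mp hZ).2
  have hc := Prod.ext_iff.mp hyc.2
  have hc1 := Prod.ext_iff.mp hc.1
  rw [zm_T, zm_T] at hT
  refine ⟨T_of F hc1.1 hT h1 hP, hc.2, hyc.1, hL.2, hZ'⟩

variable {V : Type} {A : F.Ω → Prop} {W : ℕ} {z : PtT F → κ → (Fin m → ℤ) → V}
  {z' : LnT F → V}

/-- **A closed function has few bits given the point of the zoom.** -/
theorem few (hB : B ≤ J) (hy : ∀ ω ω' : F.Ω, slam F B ω = slam F B ω' → y ω = y ω')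
    (hq : IsLaw q) (hqA : ∀ ω, 0 < q ω → A ω) (hT : TmQ F q e) (hW : W + P ≤ J)
    (hz : ∀ ω, A ω → z (ptr F J ω) (y ω) (F.D P ω) = z' (slam F W ω)) :
    CH q (fun ω => z' (slam F W ω)) (ptr (zm F B P hP y) (J - B - P)) ≤
      m * k99 + e := by
  have h0 := hq.nonneg
  have h1 := indep F hq (P := P) (by omega) hT (fun ω => z' (slam F W ω))
    (ptr (zm F B P hP y) (J - B - P)) (fun ω ω' _ _ h => by
      show z' (slam F W ω) = z' (slam F W ω')
      rw [slam_det F hW h]) (fun ω ω' _ _ h => ptr_det F hP y hB hy _ h)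
  have h2 := CH_le_add h0 (fun ω => z' (slam F W ω)) (F.X J)
    (fun ω => (F.T ω % 2 ^ P, ptr (zm F B P hP y) (J - B - P) ω))
  have h3 : CH q (F.X J) (fun ω => (F.T ω % 2 ^ P, ptr (zm F B P hP y) (J - B - P) ω)) ≤
      m * k99 := by
    have h4 := CH_le_vec h0 hq.sum_one (F.X J)
      (fun ω => (F.T ω % 2 ^ P, ptr (zm F B P hP y) (J - B - P) ω)) (fun _ => 49)
      (fun ω ω' _ _ h k => by
        have a1 := Prod.ext_iff.mp h
        have a2 := Prod.ext_iff.mp a1.2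
        obtain ⟨b1, -, -, -, b5⟩ := of_zm F hP y a1.1 a2.2
        exact_mod_cast near2 F hP y hB b1 b5 (congrFun a2.1 k))
    rwa [Ex_const hq.sum_one] at h4
  have h4 : CH q (fun ω => z' (slam F W ω)) (fun ω => (F.X J ω,
      (F.T ω % 2 ^ P, ptr (zm F B P hP y) (J - B - P) ω))) = 0 := by
    refine CH_eq_zero h0 fun ω ω' a b h => ?_
    have a1 := Prod.ext_iff.mp h
    have a2 := Prod.ext_iff.mp a1.2
    have a3 := Prod.ext_iff.mp a2.2
    obtain ⟨b1, b2, b3, b4, b5⟩ := of_zm F hP y a2.1 a3.2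
    show z' (slam F W ω) = z' (slam F W ω')
    rw [← hz ω (hqA ω a), ← hz ω' (hqA ω' b), b3, b4]
    have b6 : ptr F J ω = ptr F J ω' := Prod.ext a1.1 (Prod.ext b1 b2)
    rw [b6]
  linarith

/-- **Entropies of positions in the zoom.** -/
theorem transfer (hB : B ≤ J) (hy : ∀ ω ω' : F.Ω, slam F B ω = slam F B ω' → y ω = y ω')
    (hq : IsLaw q) (hT : TmQ F q e) (hW : W + P ≤ J) (ε : Fin n → Fin m) :
    CH q (fun ω (j : Fin n) => (zm F B P hP y).X (J - B - P) ω (ε j))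
      (fun ω => (z' (slam F W ω), (zm F B P hP y).W ω)) ≤
    CH q (fun ω (j : Fin n) => F.X J ω (ε j)) (fun ω => (z' (slam F W ω), F.W ω)) +
      n * k99 + e := by
  have h0 := hq.nonneg
  have h1 := indep F hq (P := P) (by omega) hT
    (fun ω (j : Fin n) => (zm F B P hP y).X (J - B - P) ω (ε j))
    (fun ω => (z' (slam F W ω), (zm F B P hP y).W ω)) (fun ω ω' _ _ h => by
      have h2 : (zm F B P hP y).X (J - B - P) ω = (zm F B P hP y).X (J - B - P) ω' :=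
        (Prod.ext_iff.mp (ptr_det F hP y hB hy (J - B - P) h)).1
      funext j
      show (zm F B P hP y).X (J - B - P) ω (ε j) = (zm F B P hP y).X (J - B - P) ω' (ε j)
      rw [h2]) (fun ω ω' _ _ h => by
      have h2 : (zm F B P hP y).W ω = (zm F B P hP y).W ω' :=
        (Prod.ext_iff.mp (ptr_det F hP y hB hy (J - B - P) h)).2
      show (z' (slam F W ω), (zm F B P hP y).W ω) = (z' (slam F W ω'), (zm F B P hP y).W ω')
      rw [slam_det F hW h, h2])
  have h2 := CH_le_add h0 (fun ω (j : Fin n) => (zm F B P hP y).X (J - B - P) ω (ε j))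
    (fun ω (j : Fin n) => F.X J ω (ε j))
    (fun ω => (F.T ω % 2 ^ P, (z' (slam F W ω), (zm F B P hP y).W ω)))
  have h3 : CH q (fun ω (j : Fin n) => F.X J ω (ε j))
      (fun ω => (F.T ω % 2 ^ P, (z' (slam F W ω), (zm F B P hP y).W ω))) ≤
      CH q (fun ω (j : Fin n) => F.X J ω (ε j)) (fun ω => (z' (slam F W ω), F.W ω)) := by
    refine CH_mono_cond h0 fun ω ω' _ _ h => ?_
    have a1 := Prod.ext_iff.mp h
    have a2 := Prod.ext_iff.mp a1.2
    obtain ⟨b1, b2, -, -, -⟩ := of_zm F hP y a1.1 a2.2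
    exact Prod.ext a2.1 (Prod.ext b1 b2)
  have h4 : CH q (fun ω (j : Fin n) => (zm F B P hP y).X (J - B - P) ω (ε j))
      (fun ω => ((fun j : Fin n => F.X J ω (ε j)),
        (F.T ω % 2 ^ P, (z' (slam F W ω), (zm F B P hP y).W ω)))) ≤
      n * k99 := by
    have h5 := CH_le_vec h0 hq.sum_one
      (fun ω (j : Fin n) => (zm F B P hP y).X (J - B - P) ω (ε j))
      (fun ω => ((fun j : Fin n => F.X J ω (ε j)),
        (F.T ω % 2 ^ P, (z' (slam F W ω), (zm F B P hP y).W ω)))) (fun _ => 49)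
      (fun ω ω' _ _ h k => by
        have a1 := Prod.ext_iff.mp h
        have a2 := Prod.ext_iff.mp a1.2
        have a3 := Prod.ext_iff.mp a2.2
        obtain ⟨b1, -, -, -, b5⟩ := of_zm F hP y a2.1 a3.2
        exact_mod_cast near1 F hP y hB b1 b5 (congrFun a1.1 k))
    rwa [Ex_const hq.sum_one] at h5
  linarith

/-- The digit after the window. -/
theorem T1_succ {W : ℕ} (hW : W + 1 ≤ J) (ω : F.Ω) :
    F.T1 (W + 1) ω = 2 * F.T1 W ω + F.T1 (W + 1) ω % 2 := by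
  have h1 : F.T1 W ω = F.T1 (W + 1) ω / 2 := by
    unfold Fam.T1
    rw [Nat.div_div_eq_div_mul, ← pow_succ]
    congr 2
    omega
  rw [h1]
  exact (Nat.div_add_mod _ 2).symm

/-- **A closed function is closed in the zoom**, on a large part. -/
theorem closed (hB : B ≤ J) (hy : ∀ ω ω' : F.Ω, slam F B ω = slam F B ω' → y ω = y ω')
    (hA : 0 < Pe F.p A) (hT : TmQ F (Pool.Agent.H49.Ent.cond F.p A True) e) (hW : W + P ≤ J)
    {w : ℕ} (hw : w + 1 ≤ J - B - P) (hWw : W ≤ B + w + 1)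
    (hz : ∀ ω, A ω → z (ptr F J ω) (y ω) (F.D P ω) = z' (slam F W ω)) :
    ∃ A' : F.Ω → Prop, Sub A' A ∧
      Real.exp (-(m * k99 + e + Real.log 2)) * Pe F.p A ≤ Pe F.p A' ∧
      ∃ (z₁ : PtT (zm F B P hP y) → V) (z₁' : LnT (zm F B P hP y) → V),
        (∀ ω, A' ω → z₁ (ptr (zm F B P hP y) (J - B - P) ω) =
          z₁' (slam (zm F B P hP y) w ω)) ∧
        ∀ ω, A' ω → z₁' (slam (zm F B P hP y) w ω) = z' (slam F W ω) := by
  classical
  have hq := isLaw_cond F.isLaw hA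
  have hqA : ∀ ω, 0 < Pool.Agent.H49.Ent.cond F.p A True ω → A ω := fun ω hω =>
    of_eq_true ((cond_pos_iff F.isLaw.nonneg A True ω).1 hω).2
  have hfew := few F hP y hB hy hq hqA hT hW hz
  obtain ⟨h, hh⟩ : ∃ h, h = m * k99 + e := ⟨_, rfl⟩
  rw [← hh] at hfew ⊢
  obtain ⟨v, hv⟩ := Pool.KST.out_select hq (fun _ => True) (fun ω => z' (slam F W ω))
    (ptr (zm F B P hP y) (J - B - P)) (by rw [Pe_univ hq]; exact one_pos)
  rw [Pe_univ hq, one_mul, div_one, Pe_cond, le_div_iff₀ hA] at hv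
  obtain ⟨A₁, hA₁⟩ : ∃ A₁ : F.Ω → Prop, A₁ = fun ω => A ω ∧ (True ∧ z' (slam F W ω) =
    v (ptr (zm F B P hP y) (J - B - P) ω)) := ⟨_, rfl⟩
  rw [← hA₁] at hv
  have h1 : Real.exp (-h) * Pe F.p A ≤ Pe F.p A₁ := by
    refine le_trans (mul_le_mul_of_nonneg_right (Real.exp_le_exp.2 ?_) hA.le) hv
    linarith
  -- the additional digit
  obtain ⟨b, hb⟩ : ∃ b : ℕ, Pe F.p A₁ ≤ 2 * Pe F.p (fun ω => A₁ ω ∧ F.T1 (B + w + 1) ω % 2 = b) := by
    by_contra hcon
    push Not at hcon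
    have h2 := Pe_parts (p := F.p) (B := A₁)
      (B' := fun ω => A₁ ω ∧ F.T1 (B + w + 1) ω % 2 = 0) (fun ω hω => hω.1)
    have h3 : Pe F.p (fun ω => A₁ ω ∧ ¬ (A₁ ω ∧ F.T1 (B + w + 1) ω % 2 = 0)) ≤
        Pe F.p (fun ω => A₁ ω ∧ F.T1 (B + w + 1) ω % 2 = 1) := by
      refine Pe_mono F.isLaw fun ω hω => ⟨hω.1, ?_⟩
      have h4 : ¬ F.T1 (B + w + 1) ω % 2 = 0 := fun h5 => hω.2 ⟨hω.1, h5⟩
      omega
    have h4 := hcon 0
    have h5 := hcon 1
    linarith
  refine ⟨fun ω => A₁ ω ∧ F.T1 (B + w + 1) ω % 2 = b, fun ω hω => ?_, ?_, ?_⟩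
  · have h2 := hω.1
    rw [hA₁] at h2
    exact h2.1
  · rw [neg_add, Real.exp_add, Real.exp_neg (Real.log 2), Real.exp_log (by norm_num)]
    have e1 : Real.exp (-h) * 2⁻¹ * Pe F.p A = (Real.exp (-h) * Pe F.p A) / 2 := by ring
    rw [e1]
    linarith
  · -- the functions
    have key : ∀ ω ω', (A₁ ω ∧ F.T1 (B + w + 1) ω % 2 = b) →
        (A₁ ω' ∧ F.T1 (B + w + 1) ω' % 2 = b) →
        slam (zm F B P hP y) w ω = slam (zm F B P hP y) w ω' →
        z' (slam F W ω) = z' (slam F W ω') := by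
      intro ω ω' h2 h3 h4
      have h5 := slam_of_zm F hP y hB (by omega) h4
      have h6 : slam F (B + w + 1) ω = slam F (B + w + 1) ω' := by
        have a1 := Prod.ext_iff.mp h5
        have a2 := Prod.ext_iff.mp a1.2
        refine Prod.ext a1.1 (Prod.ext a2.1 ?_)
        show F.T1 (B + w + 1) ω = F.T1 (B + w + 1) ω'
        have a3 : F.T1 (B + w) ω = F.T1 (B + w) ω' := a2.2
        rw [T1_succ F (by omega) ω, T1_succ F (by omega) ω', a3, h2.2, h3.2]
      rw [slam_coarse F hWw (by omega) ω, slam_coarse F hWw (by omega) ω', h6]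
    have hne : Nonempty F.Ω := by
      by_contra hcon
      rw [not_nonempty_iff] at hcon
      have := F.isLaw.sum_one
      simp at this
    obtain ⟨ω₀⟩ := hne
    obtain ⟨z₁', hz₁'⟩ : ∃ z₁' : LnT (zm F B P hP y) → V, z₁' = fun s =>
      if hs : ∃ ω, (A₁ ω ∧ F.T1 (B + w + 1) ω % 2 = b) ∧ slam (zm F B P hP y) w ω = s then
        z' (slam F W hs.choose) else z' (slam F W ω₀) := ⟨_, rfl⟩
    have hval : ∀ ω, (A₁ ω ∧ F.T1 (B + w + 1) ω % 2 = b) →
        z₁' (slam (zm F B P hP y) w ω) = z' (slam F W ω) := by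
      intro ω hω
      have hs : ∃ ω', (A₁ ω' ∧ F.T1 (B + w + 1) ω' % 2 = b) ∧
        slam (zm F B P hP y) w ω' = slam (zm F B P hP y) w ω := ⟨ω, hω, rfl⟩
      rw [hz₁']
      simp only [dif_pos hs]
      exact key _ _ hs.choose_spec.1 hω hs.choose_spec.2
    refine ⟨v, z₁', fun ω hω => ?_, hval⟩
    rw [hval ω hω]
    have h2 := hω.1
    rw [hA₁] at h2
    exact h2.2.2.symm

end

end Pool.REX
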