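import Pool.Agent.H72.REC.StmT
import Pool.Agent.H72.REC.ExaV

/-!
# Exactness behind records at a lower resolution: proof
-/

set_option autoImplicit false

namespace Pool.REX

open Finset Real
open Pool.Agent.H49.Ent Pool.Agent.H32.Dense Pool.STK Pool.KA Pool.KSAT Pool.K2S Pool.PB Pool.S6C
open Pool.GEN Pool.KA.TRC

variable {m n J : ℕ}

/-! ### Lower resolution -/

section

variable (F : Fam m J) {G : ℕ} (hG : G ≤ J) {q : F.Ω → ℝ} {e : ℝ}

/-- The time at a lower resolution. -/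
theorem trc_tmq (hq : IsLaw q) (hT : TmQ F q e) : TmQ (F.trc G hG) q e := by
  have h0 := hq.nonneg
  unfold TmQ at hT ⊢
  have h1 : CH q F.T (fun ω => (F.l ω, F.Z ω)) ≤
      CH q (fun ω => (F.T ω % 2 ^ (J - G), F.T ω / 2 ^ (J - G))) (fun ω => (F.l ω, F.Z ω)) := by
    refine CH_mono_left h0 fun ω ω' _ _ h => ?_
    simp only [Prod.mk.injEq] at h
    rw [← Nat.div_add_mod (F.T ω) (2 ^ (J - G)), ← Nat.div_add_mod (F.T ω') (2 ^ (J - G)),
      h.1.1, h.1.2]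
  have h2 := CH_chain h0 (fun ω => F.T ω % 2 ^ (J - G)) (fun ω => F.T ω / 2 ^ (J - G))
    (fun ω => (F.l ω, F.Z ω))
  have h3 : CH q (fun ω => F.T ω % 2 ^ (J - G))
      (fun ω => (F.T ω / 2 ^ (J - G), (F.l ω, F.Z ω))) ≤ ((J - G : ℕ) : ℝ) * Real.log 2 :=
    CH_lt hq _ _ _ fun ω => Nat.mod_lt _ (by positivity)
  rw [Nat.cast_sub hG] at h3
  have h4 : CH q (F.trc G hG).T (fun ω => ((F.trc G hG).l ω, (F.trc G hG).Z ω)) =
      CH q (fun ω => F.T ω / 2 ^ (J - G)) (fun ω => (F.l ω, F.Z ω)) := rfl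
  have h5 : (G : ℝ) * Real.log 2 - e ≤
      CH q (fun ω => F.T ω / 2 ^ (J - G)) (fun ω => (F.l ω, F.Z ω)) := by
    have e1 : ((J : ℝ) - G) * Real.log 2 = J * Real.log 2 - G * Real.log 2 := by ring
    linarith
  exact h5

/-- The position at a lower resolution. -/
theorem trc_near (ω : F.Ω) (k : Fin m) : |(F.trc G hG).X G ω k - F.X G ω k| ≤ 2 := by
  have hk := F.dir ω k
  have e1 : F.t ω = (F.T ω : ℝ) / 2 ^ J := rfl
  have e2 : (F.trc G hG).t ω = ((F.T ω / 2 ^ (J - G) : ℕ) : ℝ) / 2 ^ G := rfl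
  have e3 : (F.trc G hG).x ω k = F.u ω k + (F.trc G hG).t ω * F.d ω k := rfl
  have e4 : F.x ω k = F.u ω k + F.t ω * F.d ω k := rfl
  have hp : (2 : ℝ) ^ J = 2 ^ G * 2 ^ (J - G) := by
    rw [← pow_add]
    congr 1
    omega
  have hpG : (0 : ℝ) < 2 ^ G := by positivity
  have hpJ : (0 : ℝ) < 2 ^ (J - G) := by positivity
  have hdm := Nat.div_add_mod (F.T ω) (2 ^ (J - G))
  have hml := Nat.mod_lt (F.T ω) (show 0 < 2 ^ (J - G) by positivity)
  obtain ⟨a, ha⟩ : ∃ a, a = F.T ω / 2 ^ (J - G) := ⟨_, rfl⟩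
  obtain ⟨c, hc⟩ : ∃ c, c = F.T ω % 2 ^ (J - G) := ⟨_, rfl⟩
  rw [← ha, ← hc] at hdm
  rw [← hc] at hml
  have hdm' : (F.T ω : ℝ) = 2 ^ (J - G) * a + c := by
    rw [← hdm]
    push_cast
    ring
  have hml' : (c : ℝ) < 2 ^ (J - G) := by exact_mod_cast hml
  have hc0 : (0 : ℝ) ≤ c := Nat.cast_nonneg c
  have h1 : 2 ^ G * F.t ω - 2 ^ G * (F.trc G hG).t ω = c / 2 ^ (J - G) := by
    rw [e1, e2, ← ha, hdm', hp]
    field_simp
    ring
  have h2 : |2 ^ G * (F.trc G hG).x ω k - 2 ^ G * F.x ω k| ≤ 1 := by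
    rw [e3, e4]
    have e5 : 2 ^ G * (F.u ω k + (F.trc G hG).t ω * F.d ω k) -
        2 ^ G * (F.u ω k + F.t ω * F.d ω k) = -(c / 2 ^ (J - G) * F.d ω k) := by
      rw [← h1]
      ring
    rw [e5, abs_neg, abs_mul, abs_of_nonneg (by positivity)]
    have h3 : (c : ℝ) / 2 ^ (J - G) ≤ 1 := by
      rw [div_le_one hpJ]
      exact hml'.le
    have h4 : 0 ≤ (c : ℝ) / 2 ^ (J - G) := by positivity
    calc (c : ℝ) / 2 ^ (J - G) * |F.d ω k| ≤ 1 * 1 :=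
          mul_le_mul h3 hk (abs_nonneg _) zero_le_one
      _ = 1 := one_mul 1
  have a1 := Int.floor_le ((2 : ℝ) ^ G * F.x ω k)
  have a2 := Int.lt_floor_add_one ((2 : ℝ) ^ G * F.x ω k)
  have b1 := Int.floor_le ((2 : ℝ) ^ G * (F.trc G hG).x ω k)
  have b2 := Int.lt_floor_add_one ((2 : ℝ) ^ G * (F.trc G hG).x ω k)
  rw [abs_le] at h2
  change |⌊(2 : ℝ) ^ G * (F.trc G hG).x ω k⌋ - ⌊(2 : ℝ) ^ G * F.x ω k⌋| ≤ 2
  have key : |((⌊(2 : ℝ) ^ G * (F.trc G hG).x ω k⌋ - ⌊(2 : ℝ) ^ G * F.x ω k⌋ : ℤ) : ℝ)| ≤ 2 := by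
    rw [abs_le]
    push_cast
    constructor <;> linarith [h2.1, h2.2]
  exact_mod_cast key

theorem trc_slam {B : ℕ} (hB : B ≤ G) {ω ω' : F.Ω}
    (h : slam (F.trc G hG) B ω = slam (F.trc G hG) B ω') : slam F B ω = slam F B ω' := by
  have h1 := Prod.ext_iff.mp h
  have h2 := Prod.ext_iff.mp h1.2
  have hl : F.l ω = F.l ω' := h1.1
  have hZ : F.Z ω = F.Z ω' := h2.1
  have hT : F.T ω / 2 ^ (J - G) / 2 ^ (G - B) = F.T ω' / 2 ^ (J - G) / 2 ^ (G - B) := h2.2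
  refine Prod.ext hl (Prod.ext hZ ?_)
  show F.T ω / 2 ^ (J - B) = F.T ω' / 2 ^ (J - B)
  rw [Nat.div_div_eq_div_mul, Nat.div_div_eq_div_mul, ← pow_add] at hT
  have e1 : J - G + (G - B) = J - B := by omega
  rwa [e1] at hT

/-- **Entropies of positions in the zoom of some coordinates, at a lower resolution.** -/
theorem transferT {B P : ℕ} (hP : P ≤ G - B) {κ : Type} (y : F.Ω → κ) (hB : B ≤ G)
    (hy : ∀ ω ω' : F.Ω, slam F B ω = slam F B ω' → y ω = y ω')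
    (hq : IsLaw q) (hT : TmQ F q e) (ε : Fin n → Fin m) :
    CH q ((zmV (F.trc G hG) hP y ε).X (G - B - P)) (zmV (F.trc G hG) hP y ε).W ≤
    CH q (fun ω (j : Fin n) => F.X G ω (ε j)) (fun ω => (y ω, F.W ω)) + 2 * (n * k99) +
      2 * e := by
  have h0 := hq.nonneg
  have hP' : P ≤ G := hP.trans (Nat.sub_le _ _)
  have h1 := transferV (F.trc G hG) hP y hB (fun ω ω' h => hy ω ω' (trc_slam F hG hB h)) hq
    (trc_tmq F hG hq hT) hP' ε
  have h2 := indep F hq (P := J - G) (Nat.sub_le _ _) hT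
    (fun ω (j : Fin n) => (F.trc G hG).X G ω (ε j)) (fun ω => (y ω, (F.trc G hG).W ω))
    (fun ω ω' _ _ h => by
      simp only [Prod.mk.injEq] at h
      obtain ⟨a1, a2, -⟩ := h
      have hu : F.u ω = F.u ω' := (Prod.ext_iff.mp a2).1
      have hd : F.d ω = F.d ω' := (Prod.ext_iff.mp a2).2
      funext j
      show ⌊(2 : ℝ) ^ G * (F.u ω (ε j) + ((F.T ω / 2 ^ (J - G) : ℕ) : ℝ) / 2 ^ G *
        F.d ω (ε j))⌋ = ⌊(2 : ℝ) ^ G * (F.u ω' (ε j) + ((F.T ω' / 2 ^ (J - G) : ℕ) : ℝ) /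
          2 ^ G * F.d ω' (ε j))⌋
      rw [a1, hu, hd])
    (fun ω ω' _ _ h => by
      have a0 : slam F B ω = slam F B ω' := slam_det F (P := J - G) (by omega) h
      simp only [Prod.mk.injEq] at h
      obtain ⟨a1, -, a3⟩ := h
      exact Prod.ext (hy ω ω' a0) (Prod.ext a1 a3))
  have h3 := CH_le_add h0 (fun ω (j : Fin n) => (F.trc G hG).X G ω (ε j))
    (fun ω (j : Fin n) => F.X G ω (ε j))
    (fun ω => (F.T ω % 2 ^ (J - G), (y ω, (F.trc G hG).W ω)))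
  have h4 : CH q (fun ω (j : Fin n) => F.X G ω (ε j))
      (fun ω => (F.T ω % 2 ^ (J - G), (y ω, (F.trc G hG).W ω))) ≤
      CH q (fun ω (j : Fin n) => F.X G ω (ε j)) (fun ω => (y ω, F.W ω)) := by
    refine CH_mono_cond h0 fun ω ω' _ _ h => ?_
    have a1 := Prod.ext_iff.mp h
    have a2 := Prod.ext_iff.mp a1.2
    have a3 := Prod.ext_iff.mp a2.2
    have b1 : F.T ω % 2 ^ (J - G) = F.T ω' % 2 ^ (J - G) := a1.1
    have b2 : F.T ω / 2 ^ (J - G) = F.T ω' / 2 ^ (J - G) := a3.1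
    have b3 : F.T ω = F.T ω' := by
      rw [← Nat.div_add_mod (F.T ω) (2 ^ (J - G)), ← Nat.div_add_mod (F.T ω') (2 ^ (J - G)),
        b1, b2]
    exact Prod.ext a2.1 (Prod.ext b3 a3.2)
  have h5 : CH q (fun ω (j : Fin n) => (F.trc G hG).X G ω (ε j))
      (fun ω => ((fun j : Fin n => F.X G ω (ε j)),
        (F.T ω % 2 ^ (J - G), (y ω, (F.trc G hG).W ω)))) ≤ n * k99 := by
    have h6 := CH_le_vec h0 hq.sum_one (fun ω (j : Fin n) => (F.trc G hG).X G ω (ε j))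
      (fun ω => ((fun j : Fin n => F.X G ω (ε j)),
        (F.T ω % 2 ^ (J - G), (y ω, (F.trc G hG).W ω)))) (fun _ => 49)
      (fun ω ω' _ _ h k => by
        have a1 := congrFun (Prod.ext_iff.mp h).1 k
        have a1' : F.X G ω (ε k) = F.X G ω' (ε k) := a1
        have b1 := trc_near F hG ω (ε k)
        have b2 := trc_near F hG ω' (ε k)
        rw [a1'] at b1
        have b3 : |(F.trc G hG).X G ω (ε k) - (F.trc G hG).X G ω' (ε k)| ≤ 49 := by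
          rw [abs_le] at b1 b2 ⊢
          constructor <;> linarith [b1.1, b1.2, b2.1, b2.2]
        exact_mod_cast b3)
    rwa [Ex_const hq.sum_one] at h6
  have h12 : CH q (fun ω (j : Fin n) => (F.trc G hG).X G ω (ε j))
      (fun ω => (y ω, (F.trc G hG).W ω)) ≤
      CH q (fun ω (j : Fin n) => F.X G ω (ε j)) (fun ω => (y ω, F.W ω)) + n * k99 + e := by
    linarith
  refine (le_trans h1 (add_le_add (add_le_add h12 le_rfl) le_rfl)).trans (le_of_eq ?_)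
  ring

end

/-! ### The class of the zooms -/

/-- The zooms. -/
theorem recT_cases {S : PCl m} {v : Vt m} {ε : Fin n → Fin m} {τ : ℝ} {Φ : Stat n}
    (h : ∀ (J : ℕ) (F : Fam m J) (A : F.Ω → Prop), S.St τ J F A →
      Φ (v.R J) (v.famT ε F) A) {J : ℕ} {F : Fam n J} {A : F.Ω → Prop}
    (hA : (RecT S v ε).St τ J F A) : Φ J F A := by
  have key : ∀ (J : ℕ) (F : Fam n J) (A : F.Ω → Prop) (hq : ⌊v.p * (J : ℝ)⌋₊ ≤ J),
      WyTSt S v ε τ J F A → Φ (J - ⌊v.p * (J : ℝ)⌋₊) (F.tub _ hq) A := by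
    rintro J F A hq ⟨J, F, A, hS⟩
    exact h J F A hS
  obtain ⟨J, F, A, hq, hS⟩ := hA
  exact key J F A hq hS

theorem recT_mk {S : PCl m} {v : Vt m} {ε : Fin n → Fin m} {τ : ℝ} {F : Fam m J}
    {A : F.Ω → Prop} (h : S.St τ J F A) : (RecT S v ε).St τ (v.R J) (v.famT ε F) A :=
  TubSt.mk (v.G J - v.B J) (v.winT ε F) A (v.P_le J) (WyTSt.mk J F A h)

/-- The class of the zooms is nonempty. -/
theorem recT_ne {S : PCl m} (hS : S.Ne) (v : Vt m) (ε : Fin n → Fin m) : (RecT S v ε).Ne := by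
  intro τ hτ J₁
  have hc := v.c_pos
  obtain ⟨J₂, hJ₂⟩ := exists_nat_ge (1 / ((v.g - v.b) * (1 - v.p)) * J₁)
  obtain ⟨J, hJ, F, A, hA⟩ := hS τ hτ J₂
  have h3 := v.le_R J
  refine ⟨v.R J, ?_, v.famT ε F, A, recT_mk hA⟩
  have h4 : (J₂ : ℝ) ≤ J := by exact_mod_cast hJ
  have h5 : 1 / ((v.g - v.b) * (1 - v.p)) * (J₁ : ℝ) ≤
      1 / ((v.g - v.b) * (1 - v.p)) * v.R J := by
    linarith
  have h6 : (J₁ : ℝ) ≤ v.R J := le_of_mul_le_mul_left h5 (by positivity)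
  exact_mod_cast h6

/-- The time in a window, with a visible variable. -/
theorem wincnd_tm (F : Fam m J) {B : ℕ} (hB : B ≤ J) {κ : Type} (y : F.Ω → κ)
    (hy : ∀ ω ω' : F.Ω, slam F B ω = slam F B ω' → y ω = y ω') {q : F.Ω → ℝ} (hq : IsLaw q)
    {e : ℝ} (hT : TmQ F q e) : TmQ ((F.win B).cnd y) q e := by
  obtain ⟨G, hG⟩ : ∃ G : Fam m J, G = { F with p := q, isLaw := hq } := ⟨_, rfl⟩
  have hGT : G.Tm e := by
    rw [hG]
    exact hT
  have h1 := (Pool.KA.win_thm m J G B hB).1 e hGT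
  subst hG
  unfold Fam.Tm at h1
  unfold TmQ
  refine h1.trans ?_
  refine CH_mono_cond hq.nonneg fun ω ω' _ _ h => ?_
  have a1 := Prod.ext_iff.mp h
  have hl : (F.win B).l ω = (F.win B).l ω' := a1.1
  have hZ : (F.win B).Z ω = (F.win B).Z ω' := a1.2
  obtain ⟨e1, e2, e3⟩ := Pool.K2S.NPL.win_det F B hl hZ
  have hyy : y ω = y ω' := hy ω ω' (Prod.ext e1 (Prod.ext e3 e2))
  exact Prod.ext hl (Prod.ext hyy hZ)

/-- The time in the windows. -/
theorem winT_tm (v : Vt m) (ε : Fin n → Fin m) (F : Fam m J) {q : F.Ω → ℝ} (hq : IsLaw q)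
    {e : ℝ} (hT : TmQ F q e) : TmQ (v.winT ε F) q e :=
  prj_tm (((F.trc (v.G J) (v.G_le J)).win (v.B J)).cnd (v.y J F)) ε hq (wincnd_tm (F.trc (v.G J) (v.G_le J)) (v.B_le J) (v.y J F)
    (fun ω ω' h => v.line J F ω ω' (trc_slam F (v.G_le J) (v.B_le J) h)) hq
    (trc_tmq F (v.G_le J) hq hT))

/-- The time in the zooms. -/
theorem famT_tm (v : Vt m) (ε : Fin n → Fin m) (F : Fam m J)
    {q : F.Ω → ℝ} (hq : IsLaw q) {e : ℝ} (hT : TmQ F q e) : TmQ (v.famT ε F) q e := by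
  have h1 := winT_tm v ε F hq hT
  obtain ⟨G, hG⟩ : ∃ G : Fam n (v.G J - v.B J), G = { v.winT ε F with p := q, isLaw := hq } :=
    ⟨_, rfl⟩
  have hGT : G.Tm e := by
    rw [hG]
    exact h1
  have h2 := ((tub_thm n).choose_spec.2 (v.G J - v.B J) G (v.P J) (v.P_le J) e hGT).1
  subst hG
  exact h2

/-- The events and the times in the zooms. -/
theorem recT_tm {S : PCl m} {C₀ : ℝ} (hC : 0 ≤ C₀) (h : TmC S C₀) (v : Vt m)
    (ε : Fin n → Fin m) : TmC (RecT S v ε) (C₀ * (1 / ((v.g - v.b) * (1 - v.p)))) := by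
  intro τ J F A hτ hA
  refine recT_cases (S := S) (v := v) (ε := ε) (τ := τ) (Φ := fun J F A => 0 < Pe F.p A ∧
    ∀ h : IsLaw (Pool.Agent.H49.Ent.cond F.p A True),
      (F.res A True h).Tm (C₀ * (1 / ((v.g - v.b) * (1 - v.p))) * τ * J)) ?_ hA
  intro J F A hS
  obtain ⟨h1, h2⟩ := h τ J F A hτ hS
  refine ⟨h1, fun hl => ?_⟩
  have h3 := h2 hl
  have h4 : TmQ F (Pool.Agent.H49.Ent.cond F.p A True) (C₀ * τ * J) := h3
  have h5 := famT_tm v ε F hl h4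
  have h6 := v.le_R J
  unfold TmQ at h5
  unfold Fam.Tm
  have h7 : C₀ * τ * (J : ℝ) ≤
      C₀ * (1 / ((v.g - v.b) * (1 - v.p))) * τ * (v.R J : ℝ) := by
    calc C₀ * τ * (J : ℝ) ≤ C₀ * τ * (1 / ((v.g - v.b) * (1 - v.p)) * (v.R J : ℝ)) :=
          mul_le_mul_of_nonneg_left h6 (mul_nonneg hC hτ.le)
      _ = _ := by ring
  refine le_trans ?_ h5
  linarith

/-! ### Exactness -/

/-- **Exactness behind records, at a lower resolution.** -/
theorem rext (n : ℕ) : RexT n := by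
  classical
  intro hF m S C₀ hC₀ htm v ε S' hne hsub L hL N al g₀ hal hg₀ hN σ hσ hact w hw ρ hρ
  obtain ⟨hw0, hw1, hgr, hct⟩ := hw
  obtain ⟨c, hc⟩ : ∃ c, c = (v.g - v.b) * (1 - v.p) := ⟨_, rfl⟩
  have hc0 : 0 < c := by rw [hc]; exact v.c_pos
  have hc1 : c ≤ 1 := by rw [hc]; exact v.c_le
  have hl2 : 0 < Real.log 2 := Real.log_pos one_lt_two
  have hl99 := k99_nonneg
  have htm' : TmC S' (C₀ * (1 / c)) := by
    intro τ J F A hτ hA
    rw [hc]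
    exact recT_tm hC₀ htm v ε τ J F A hτ (hsub τ J F A hA)
  have hpos' : Bas S' (fun _ F A => 0 < Pe F.p A) :=
    ⟨1, one_pos, 0, fun J _ F A hA => (htm' 1 J F A one_pos hA).1⟩
  obtain ⟨X, hX⟩ : ∃ X, X = ∑ j : Fin n, (1 - vs L σ w (j + 1)) := ⟨_, rfl⟩
  have hsum : ∑ j : Fin n, (v.g - v.sc (vs L σ w (j + 1))) = c * X := by
    rw [hX, Finset.mul_sum]
    refine Finset.sum_congr rfl fun j _ => ?_
    rw [hc]
    unfold Vt.sc
    ring
  rw [hsum]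
  -- the trivial case
  by_cases htriv : c * X - ρ ≤ 0
  · refine ⟨1, one_pos, 0, fun J _ F A hA => ?_⟩
    have hJ : (0 : ℝ) ≤ J := Nat.cast_nonneg J
    have h1 := (htm 1 J F A one_pos hA.1).1
    refine le_trans ?_ (CH_nonneg (isLaw_cond F.isLaw h1).nonneg _ _)
    exact mul_nonpos_of_nonpos_of_nonneg (mul_nonpos_of_nonpos_of_nonneg htriv hl2.le) hJ
  push Not at htriv
  have hXρ : ρ < X := by
    have hX0 : 0 < X := by
      by_contra h
      push Not at h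
      have := mul_nonpos_of_nonneg_of_nonpos hc0.le h
      linarith
    have : c * X ≤ X := by nlinarith
    linarith
  obtain ⟨τ₁, hτ₁, J₁, hex⟩ := vst_exa hF hne (mul_nonneg hC₀ (by positivity)) htm' hL hal hg₀ hN
    hpos' hσ hact hw0 hw1 hgr hct (ρ := ρ / 4) (by positivity)
  rw [← hX] at hex
  obtain ⟨τ, hτ⟩ : ∃ τ, τ = min (c * τ₁) (ρ * Real.log 2 / (8 * (C₀ + 1))) := ⟨_, rfl⟩
  have hτ0 : 0 < τ := by
    rw [hτ]
    exact lt_min (by positivity) (by positivity)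
  have hτa : 1 / c * τ ≤ τ₁ := by
    have h1 : τ ≤ c * τ₁ := by rw [hτ]; exact min_le_left _ _
    rw [one_div, ← div_eq_inv_mul, div_le_iff₀ hc0]
    linarith
  have hτb : C₀ * τ ≤ ρ * Real.log 2 / 8 := by
    have h1 : τ ≤ ρ * Real.log 2 / (8 * (C₀ + 1)) := by rw [hτ]; exact min_le_right _ _
    rw [le_div_iff₀ (by positivity)] at h1
    nlinarith
  obtain ⟨J₃, hJ₃⟩ := exists_nat_ge (1 / c * J₁)
  obtain ⟨J₅, hJ₅⟩ := exists_nat_ge (n * k99 / (ρ * Real.log 2 / 8))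
  refine ⟨τ, hτ0, max J₃ J₅, fun J hJ F A hA => ?_⟩
  have j3 : (J₃ : ℝ) ≤ J := by exact_mod_cast (le_max_left _ _).trans hJ
  have j5 : (J₅ : ℝ) ≤ J := by exact_mod_cast (le_max_right _ _).trans hJ
  have hJ0 : (0 : ℝ) ≤ J := Nat.cast_nonneg J
  have k1 := v.B_le J
  have k2 := v.P_le J
  have kG := v.G_le J
  have k3 := v.le_R J
  rw [← hc] at k3
  have g2 : n * k99 ≤ ρ * Real.log 2 / 8 * J := by
    have := hJ₅.trans j5
    rw [div_le_iff₀ (by positivity)] at this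
    linarith
  have hApos := (htm τ J F A hτ0 hA.1).1
  have hJ1 : J₁ ≤ v.R J := by
    have h1 : 1 / c * (J₁ : ℝ) ≤ 1 / c * v.R J := hJ₃.trans (j3.trans k3)
    have h2 : (J₁ : ℝ) ≤ v.R J := le_of_mul_le_mul_left h1 (by positivity)
    exact_mod_cast h2
  have hq := isLaw_cond F.isLaw hApos
  have t1 : TmQ F (Pool.Agent.H49.Ent.cond F.p A True) (C₀ * τ * J) :=
    (htm τ J F A hτ0 hA.1).2 hq
  have s3 : S'.St τ₁ (v.R J) (v.famT ε F) A := by
    have h1 := hA.2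
    rw [← hc] at h1
    exact S'.mono hτa h1
  have h1 := hex (v.R J) hJ1 (v.famT ε F) A s3 Unit (fun _ => ()) (fun _ => ())
    (fun _ _ => rfl)
  have h3 : CH (Pool.Agent.H49.Ent.cond F.p A True) ((v.famT ε F).X (v.R J))
      (v.famT ε F).W ≤ CH (Pool.Agent.H49.Ent.cond F.p A True)
      (fun ω (j : Fin n) => F.X (v.G J) ω (ε j)) (fun ω => (v.y J F ω, F.W ω)) +
        2 * (n * k99) + 2 * (C₀ * τ * J) :=
    transferT F kG k2 (v.y J F) k1 (v.line J F) hq t1 ε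
  have h4 : (X - ρ / 4) * Real.log 2 * (v.R J : ℝ) ≤
      CH (Pool.Agent.H49.Ent.cond F.p A True) ((v.famT ε F).X (v.R J))
        (v.famT ε F).W := h1.trans (perm_le (v.famT ε F) hq σ)
  have h5 : (X - ρ / 4) * Real.log 2 * (c * J) ≤ (X - ρ / 4) * Real.log 2 * (v.R J : ℝ) := by
    refine mul_le_mul_of_nonneg_left ?_ (mul_nonneg (by linarith) hl2.le)
    have := k3
    rw [one_div, ← div_eq_inv_mul, le_div_iff₀ hc0] at this
    linarith
  have h7 : C₀ * τ * (J : ℝ) ≤ ρ * Real.log 2 / 8 * J := mul_le_mul_of_nonneg_right hτb hJ0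
  have h8 : (X - ρ / 4) * Real.log 2 * (c * J) =
      (c * X) * Real.log 2 * J - c * (ρ / 4 * Real.log 2 * J) := by ring
  have h9 : c * (ρ / 4 * Real.log 2 * J) ≤ ρ / 4 * Real.log 2 * J := by
    have : 0 ≤ ρ / 4 * Real.log 2 * J := by positivity
    nlinarith
  have h10 : (c * X - ρ) * Real.log 2 * J =
      (c * X) * Real.log 2 * J - ρ / 4 * Real.log 2 * J - 2 * (ρ * Real.log 2 / 8 * J) -
        2 * (ρ * Real.log 2 / 8 * J) - ρ * Real.log 2 / 4 * J := by ring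
  have h11 : 0 ≤ ρ * Real.log 2 / 4 * J := by positivity
  show (c * X - ρ) * Real.log 2 * J ≤ CH (Pool.Agent.H49.Ent.cond F.p A True)
    (fun ω (j : Fin n) => F.X (v.G J) ω (ε j)) (fun ω => (v.y J F ω, F.W ω))
  rw [h10]
  linarith

end Pool.REX
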