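import Pool.Agent.H72.REC.Stm

/-!
# The zoom of a family into a window and a tube: geometry

`zm F B P hP y`: the family in the windows of length `2 ^ (-B)` and in the tubes of width
`2 ^ (-P)` (in the windows), with the side information `y`.
-/

set_option autoImplicit false

namespace Pool.REX

open Finset Real
open Pool.Agent.H49.Ent Pool.Agent.H32.Dense Pool.STK Pool.KA Pool.KSAT Pool.K2S Pool.PB Pool.S6C
open Pool.GEN

variable {m J : ℕ}

/-- The zoom of a family. -/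
noncomputable def zm (F : Fam m J) (B P : ℕ) (hP : P ≤ J - B) {κ : Type} (y : F.Ω → κ) :
    Fam m (J - B - P) := ((F.win B).cnd y).tub P hP

theorem Vz.fam_eq (v : Vz m) (F : Fam m J) (h : v.P J ≤ J - v.B J) :
    v.fam F h = zm F (v.B J) (v.P J) h (v.y J F) := rfl

section

variable (F : Fam m J) {B P : ℕ} (hP : P ≤ J - B) {κ : Type} (y : F.Ω → κ)

theorem zm_T (ω : F.Ω) : (zm F B P hP y).T ω = F.T ω % 2 ^ (J - B) / 2 ^ P := rfl

theorem zm_Z (ω : F.Ω) : (zm F B P hP y).Z ω = ((F.win B).L P ω, (y ω, F.c B ω)) := rfl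

/-- The time, from the window, the time in the zoom and the last digits. -/
theorem T_of {ω ω' : F.Ω} (h1 : F.T1 B ω = F.T1 B ω')
    (h2 : F.T ω % 2 ^ (J - B) / 2 ^ P = F.T ω' % 2 ^ (J - B) / 2 ^ P)
    (h3 : F.T ω % 2 ^ P = F.T ω' % 2 ^ P) (hP : P ≤ J - B) : F.T ω = F.T ω' := by
  have hd : 2 ^ P ∣ 2 ^ (J - B) := pow_dvd_pow 2 hP
  have e1 : ∀ t : ℕ, t % 2 ^ (J - B) = 2 ^ P * (t % 2 ^ (J - B) / 2 ^ P) + t % 2 ^ P := by
    intro t
    have h4 := Nat.div_add_mod (t % 2 ^ (J - B)) (2 ^ P)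
    rw [Nat.mod_mod_of_dvd t hd] at h4
    exact h4.symm
  have e2 : ∀ t : ℕ, t = 2 ^ (J - B) * (t / 2 ^ (J - B)) + t % 2 ^ (J - B) :=
    fun t => (Nat.div_add_mod t _).symm
  have h4 : F.T ω / 2 ^ (J - B) = F.T ω' / 2 ^ (J - B) := h1
  rw [e2 (F.T ω), e2 (F.T ω'), h4, e1 (F.T ω), e1 (F.T ω'), h2, h3]

/-- The first digits of the time. -/
theorem T1_of_div {W : ℕ} (hW : W + P ≤ J) (ω : F.Ω) :
    F.T1 W ω = F.T ω / 2 ^ P / 2 ^ (J - W - P) := by
  unfold Fam.T1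
  rw [Nat.div_div_eq_div_mul, ← pow_add]
  congr 2
  omega

/-- The time in the zoom. -/
theorem zT_of_div (ω : F.Ω) (hP : P ≤ J - B) :
    F.T ω % 2 ^ (J - B) / 2 ^ P = F.T ω / 2 ^ P % 2 ^ (J - B - P) := by
  rw [← Nat.mod_mul_right_div_self, ← pow_add]
  congr 3
  omega

/-- The first digits of the time in the window. -/
theorem zm_T1 {w : ℕ} (hw : w ≤ J - B - P) (ω : F.Ω) :
    (zm F B P hP y).T1 w ω = F.T ω % 2 ^ (J - B) / 2 ^ (J - B - w) := by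
  unfold Fam.T1
  rw [zm_T, Nat.div_div_eq_div_mul, ← pow_add]
  congr 2
  omega

/-- The first digits of the time, from the window and from the digits in the window. -/
theorem T1_add {w : ℕ} (hw : w ≤ J - B) (hB : B ≤ J) (ω : F.Ω) :
    F.T1 (B + w) ω = 2 ^ w * F.T1 B ω + F.T ω % 2 ^ (J - B) / 2 ^ (J - B - w) := by
  unfold Fam.T1
  have e0 : J - (B + w) = J - B - w := by omega
  have e2 : (2 : ℕ) ^ (J - B) = 2 ^ (J - B - w) * 2 ^ w := by
    rw [← pow_add]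
    congr 1
    omega
  have e3 := Nat.div_add_mod (F.T ω) (2 ^ (J - B))
  rw [e0]
  obtain ⟨a, ha⟩ : ∃ a, a = F.T ω / 2 ^ (J - B) := ⟨_, rfl⟩
  obtain ⟨c, hc⟩ : ∃ c, c = F.T ω % 2 ^ (J - B) := ⟨_, rfl⟩
  rw [← ha, ← hc] at e3
  rw [← ha, ← hc, ← e3, e2]
  have e4 : 2 ^ (J - B - w) * 2 ^ w * a + c = 2 ^ (J - B - w) * (2 ^ w * a) + c := by ring
  rw [e4, Nat.mul_add_div (by positivity)]

/-- **The line in the zoom determines the line.** -/
theorem slam_of_zm {w : ℕ} (hB : B ≤ J) (hw : w ≤ J - B - P) {ω ω' : F.Ω}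
    (h : slam (zm F B P hP y) w ω = slam (zm F B P hP y) w ω') :
    slam F (B + w) ω = slam F (B + w) ω' := by
  have h1 := Prod.ext_iff.mp h
  have hl : (zm F B P hP y).l ω = (zm F B P hP y).l ω' := h1.1
  have h2 := Prod.ext_iff.mp h1.2
  have hZ : (zm F B P hP y).Z ω = (zm F B P hP y).Z ω' := h2.1
  have hT : (zm F B P hP y).T1 w ω = (zm F B P hP y).T1 w ω' := h2.2
  rw [zm_Z, zm_Z] at hZ
  have hL : (F.win B).L P ω = (F.win B).L P ω' := (Prod.ext_iff.mp hZ).1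
  have hc : F.c B ω = F.c B ω' := (Prod.ext_iff.mp (Prod.ext_iff.mp hZ).2).2
  have hu : (F.win B).u ω = (F.win B).u ω' := by
    funext i
    have a1 : ⌊(2 : ℝ) ^ P * (F.win B).u ω i⌋ = ⌊(2 : ℝ) ^ P * (F.win B).u ω' i⌋ :=
      congrFun (Prod.ext_iff.mp hL).1 i
    have a2 : Int.fract ((2 : ℝ) ^ P * (F.win B).u ω i) =
        Int.fract ((2 : ℝ) ^ P * (F.win B).u ω' i) := congrFun (Prod.ext_iff.mp hl).1 i
    exact TUB.eq_of_parts a1 a2
  have hd : (F.win B).d ω = (F.win B).d ω' := by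
    funext i
    have a1 : ⌊(2 : ℝ) ^ P * (F.win B).d ω i⌋ = ⌊(2 : ℝ) ^ P * (F.win B).d ω' i⌋ :=
      congrFun (Prod.ext_iff.mp hL).2 i
    have a2 : Int.fract ((2 : ℝ) ^ P * (F.win B).d ω i) =
        Int.fract ((2 : ℝ) ^ P * (F.win B).d ω' i) := congrFun (Prod.ext_iff.mp hl).2 i
    exact TUB.eq_of_parts a1 a2
  obtain ⟨e1, e2, e3⟩ := Pool.K2S.NPL.win_det F B (Prod.ext hu hd) hc
  refine Prod.ext e1 (Prod.ext e3 ?_)
  show F.T1 (B + w) ω = F.T1 (B + w) ω'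
  rw [T1_add F (by omega) hB ω, T1_add F (by omega) hB ω', e2]
  rw [zm_T1 F hP y hw, zm_T1 F hP y hw] at hT
  rw [hT]

/-- **The line determines the line in the zoom.** -/
theorem zm_of_slam {w : ℕ} (hB : B ≤ J) (hw : w ≤ J - B - P)
    (hy : ∀ ω ω' : F.Ω, slam F B ω = slam F B ω' → y ω = y ω') {ω ω' : F.Ω}
    (h : slam F (B + w) ω = slam F (B + w) ω') :
    slam (zm F B P hP y) w ω = slam (zm F B P hP y) w ω' := by
  have h1 := Prod.ext_iff.mp h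
  have hl : F.l ω = F.l ω' := h1.1
  have h2 := Prod.ext_iff.mp h1.2
  have hZ : F.Z ω = F.Z ω' := h2.1
  have hT : F.T1 (B + w) ω = F.T1 (B + w) ω' := h2.2
  have hu : F.u ω = F.u ω' := (Prod.ext_iff.mp hl).1
  have hd : F.d ω = F.d ω' := (Prod.ext_iff.mp hl).2
  rw [T1_add F (by omega) hB ω, T1_add F (by omega) hB ω'] at hT
  have hlt : ∀ ω : F.Ω, F.T ω % 2 ^ (J - B) / 2 ^ (J - B - w) < 2 ^ w := by
    intro ω
    rw [Nat.div_lt_iff_lt_mul (by positivity), ← pow_add]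
    have e : w + (J - B - w) = J - B := by omega
    rw [e]
    exact Nat.mod_lt _ (by positivity)
  have hT1 : F.T1 B ω = F.T1 B ω' := by
    have h3 : (2 ^ w * F.T1 B ω + F.T ω % 2 ^ (J - B) / 2 ^ (J - B - w)) / 2 ^ w =
      (2 ^ w * F.T1 B ω' + F.T ω' % 2 ^ (J - B) / 2 ^ (J - B - w)) / 2 ^ w := by rw [hT]
    rw [Nat.mul_add_div (by positivity), Nat.mul_add_div (by positivity),
      Nat.div_eq_of_lt (hlt ω), Nat.div_eq_of_lt (hlt ω')] at h3
    simpa using h3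
  have hT2 : F.T ω % 2 ^ (J - B) / 2 ^ (J - B - w) =
      F.T ω' % 2 ^ (J - B) / 2 ^ (J - B - w) := by
    rw [hT1] at hT
    exact Nat.add_left_cancel hT
  have hx1 : F.x1 B ω = F.x1 B ω' := Pool.KA.Win.x1_det F B hu hd hT1
  have hwu : (F.win B).u ω = (F.win B).u ω' := by
    funext i
    show Int.fract (2 ^ B * F.x1 B ω i) = Int.fract (2 ^ B * F.x1 B ω' i)
    rw [hx1]
  have hwd : (F.win B).d ω = (F.win B).d ω' := hd
  have hc : F.c B ω = F.c B ω' := by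
    unfold Fam.c
    rw [hT1, hx1, hZ]
  have hyy : y ω = y ω' := hy ω ω' (Prod.ext hl (Prod.ext hZ hT1))
  refine Prod.ext ?_ (Prod.ext ?_ ?_)
  · show ((fun i => Int.fract (2 ^ P * (F.win B).u ω i)),
      (fun i => Int.fract (2 ^ P * (F.win B).d ω i))) =
      ((fun i => Int.fract (2 ^ P * (F.win B).u ω' i)),
      (fun i => Int.fract (2 ^ P * (F.win B).d ω' i)))
    rw [hwu, hwd]
  · show (zm F B P hP y).Z ω = (zm F B P hP y).Z ω'
    rw [zm_Z, zm_Z, hyy, hc]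
    congr 1
    show (fl P ((F.win B).u ω), fl P ((F.win B).d ω)) =
      (fl P ((F.win B).u ω'), fl P ((F.win B).d ω'))
    rw [hwu, hwd]
  · show (zm F B P hP y).T1 w ω = (zm F B P hP y).T1 w ω'
    rw [zm_T1 F hP y hw, zm_T1 F hP y hw, hT2]

/-! ### Positions -/

/-- The position in the zoom. -/
theorem zm_close (hB : B ≤ J) (ω : F.Ω) (k : Fin m) :
    |(2 : ℝ) ^ (J - B - P) * (zm F B P hP y).x ω k - (2 ^ J * F.x ω k -
      2 ^ (J - B) * (fl B (F.x1 B ω) k : ℝ) - 2 ^ (J - B - P) *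
        (((F.win B).L P ω).1 k + (F.win B).t ω * (((F.win B).L P ω).2 k : ℝ)))| ≤ 1 := by
  have h1 := Tb.close ((F.win B).cnd y) hP (j := J - B - P) (by omega) ω k
  have h2 : ((F.win B).cnd y).x ω k = 2 ^ B * F.x ω k - fl B (F.x1 B ω) k :=
    Pool.K2S.NPL.win_x F hB ω k
  have e1 : J - B - P + P = J - B := by omega
  have e2 : (2 : ℝ) ^ (J - B) * 2 ^ B = 2 ^ J := by
    rw [← pow_add]
    congr 1
    omega
  rw [e1, h2] at h1
  have e3 : (2 : ℝ) ^ (J - B) * (2 ^ B * F.x ω k - fl B (F.x1 B ω) k) =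
      2 ^ J * F.x ω k - 2 ^ (J - B) * (fl B (F.x1 B ω) k : ℝ) := by
    rw [mul_sub, ← mul_assoc, e2]
  rw [e3] at h1
  exact h1

theorem near_aux {a a' b b' : ℝ} {u u' : ℤ} (h : |a - (b - u)| ≤ 1) (h' : |a' - (b' - u')| ≤ 1)
    (hu : u = u') : |((a - a') - (b - b'))| ≤ 2 := by
  subst hu
  have e1 : (a - a') - (b - b') = (a - (b - u)) - (a' - (b' - u)) := by ring
  rw [e1]
  exact (abs_sub _ _).trans (by linarith)

/-- The positions in the zoom and in the family vary together. -/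
theorem zm_diff (hB : B ≤ J) {ω ω' : F.Ω} (hT : F.T ω = F.T ω')
    (hZ : (zm F B P hP y).Z ω = (zm F B P hP y).Z ω') (k : Fin m) :
    |((2 : ℝ) ^ (J - B - P) * (zm F B P hP y).x ω k -
        2 ^ (J - B - P) * (zm F B P hP y).x ω' k) -
      (2 ^ J * F.x ω k - 2 ^ J * F.x ω' k)| ≤ 2 := by
  have h1 := zm_close F hP y hB ω k
  have h2 := zm_close F hP y hB ω' k
  rw [zm_Z, zm_Z] at hZ
  have hL : (F.win B).L P ω = (F.win B).L P ω' := (Prod.ext_iff.mp hZ).1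
  have hc : F.c B ω = F.c B ω' := (Prod.ext_iff.mp (Prod.ext_iff.mp hZ).2).2
  have hx : fl B (F.x1 B ω) = fl B (F.x1 B ω') := (Prod.ext_iff.mp (Prod.ext_iff.mp hc).1).2
  have ht : (F.win B).t ω = (F.win B).t ω' := by
    show ((F.T ω % 2 ^ (J - B) : ℕ) : ℝ) / 2 ^ (J - B) =
      ((F.T ω' % 2 ^ (J - B) : ℕ) : ℝ) / 2 ^ (J - B)
    rw [hT]
  rw [hL, hx, ht] at h1
  have e1 : ∀ a b c d : ℝ, a - (b - c - d) = (a - b) + (c + d) := fun a b c d => by ring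
  rw [e1] at h1 h2
  rw [abs_le] at h1 h2 ⊢
  constructor <;> linarith [h1.1, h1.2, h2.1, h2.2]

/-- The position in the zoom, from the position, the time and the cell. -/
theorem near1 (hB : B ≤ J) {ω ω' : F.Ω} (hT : F.T ω = F.T ω')
    (hZ : (zm F B P hP y).Z ω = (zm F B P hP y).Z ω') {k : Fin m}
    (hX : F.X J ω k = F.X J ω' k) :
    |(zm F B P hP y).X (J - B - P) ω k - (zm F B P hP y).X (J - B - P) ω' k| ≤ 49 := by
  have h1 := zm_diff F hP y hB hT hZ k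
  have hX' : ⌊(2 : ℝ) ^ J * F.x ω k⌋ = ⌊(2 : ℝ) ^ J * F.x ω' k⌋ := hX
  have a1 := Int.floor_le ((2 : ℝ) ^ J * F.x ω k)
  have a2 := Int.lt_floor_add_one ((2 : ℝ) ^ J * F.x ω k)
  have b1 := Int.floor_le ((2 : ℝ) ^ J * F.x ω' k)
  have b2 := Int.lt_floor_add_one ((2 : ℝ) ^ J * F.x ω' k)
  have g1 := Int.floor_le ((2 : ℝ) ^ (J - B - P) * (zm F B P hP y).x ω k)
  have g2 := Int.lt_floor_add_one ((2 : ℝ) ^ (J - B - P) * (zm F B P hP y).x ω k)
  have g3 := Int.floor_le ((2 : ℝ) ^ (J - B - P) * (zm F B P hP y).x ω' k)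
  have g4 := Int.lt_floor_add_one ((2 : ℝ) ^ (J - B - P) * (zm F B P hP y).x ω' k)
  rw [hX'] at a1 a2
  rw [abs_le] at h1
  change |⌊(2 : ℝ) ^ (J - B - P) * (zm F B P hP y).x ω k⌋ -
    ⌊(2 : ℝ) ^ (J - B - P) * (zm F B P hP y).x ω' k⌋| ≤ 49
  have key : |((⌊(2 : ℝ) ^ (J - B - P) * (zm F B P hP y).x ω k⌋ -
      ⌊(2 : ℝ) ^ (J - B - P) * (zm F B P hP y).x ω' k⌋ : ℤ) : ℝ)| ≤ 49 := by
    rw [abs_le]
    push_cast
    constructor <;> linarith [h1.1, h1.2]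
  exact_mod_cast key

/-- The position, from the position in the zoom, the time and the cell. -/
theorem near2 (hB : B ≤ J) {ω ω' : F.Ω} (hT : F.T ω = F.T ω')
    (hZ : (zm F B P hP y).Z ω = (zm F B P hP y).Z ω') {k : Fin m}
    (hX : (zm F B P hP y).X (J - B - P) ω k = (zm F B P hP y).X (J - B - P) ω' k) :
    |F.X J ω k - F.X J ω' k| ≤ 49 := by
  have h1 := zm_diff F hP y hB hT hZ k
  have hX' : ⌊(2 : ℝ) ^ (J - B - P) * (zm F B P hP y).x ω k⌋ =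
    ⌊(2 : ℝ) ^ (J - B - P) * (zm F B P hP y).x ω' k⌋ := hX
  have a1 := Int.floor_le ((2 : ℝ) ^ J * F.x ω k)
  have a2 := Int.lt_floor_add_one ((2 : ℝ) ^ J * F.x ω k)
  have b1 := Int.floor_le ((2 : ℝ) ^ J * F.x ω' k)
  have b2 := Int.lt_floor_add_one ((2 : ℝ) ^ J * F.x ω' k)
  have g1 := Int.floor_le ((2 : ℝ) ^ (J - B - P) * (zm F B P hP y).x ω k)
  have g2 := Int.lt_floor_add_one ((2 : ℝ) ^ (J - B - P) * (zm F B P hP y).x ω k)
  have g3 := Int.floor_le ((2 : ℝ) ^ (J - B - P) * (zm F B P hP y).x ω' k)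
  have g4 := Int.lt_floor_add_one ((2 : ℝ) ^ (J - B - P) * (zm F B P hP y).x ω' k)
  rw [hX'] at g1 g2
  rw [abs_le] at h1
  change |⌊(2 : ℝ) ^ J * F.x ω k⌋ - ⌊(2 : ℝ) ^ J * F.x ω' k⌋| ≤ 49
  have key : |((⌊(2 : ℝ) ^ J * F.x ω k⌋ - ⌊(2 : ℝ) ^ J * F.x ω' k⌋ : ℤ) : ℝ)| ≤ 49 := by
    rw [abs_le]
    push_cast
    constructor <;> linarith [h1.1, h1.2]
  exact_mod_cast key

/-- **Everything in the zoom is a function of the line and of the first digits of the time.** -/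
theorem zm_det (hB : B ≤ J) (hy : ∀ ω ω' : F.Ω, slam F B ω = slam F B ω' → y ω = y ω')
    {ω ω' : F.Ω} (hl : F.l ω = F.l ω') (hZ : F.Z ω = F.Z ω')
    (hT : F.T ω / 2 ^ P = F.T ω' / 2 ^ P) :
    (zm F B P hP y).x ω = (zm F B P hP y).x ω' ∧ (zm F B P hP y).W ω = (zm F B P hP y).W ω' := by
  have hu : F.u ω = F.u ω' := (Prod.ext_iff.mp hl).1
  have hd : F.d ω = F.d ω' := (Prod.ext_iff.mp hl).2
  have hT1 : F.T1 B ω = F.T1 B ω' := by
    rw [T1_of_div F (P := P) (by omega) ω, T1_of_div F (P := P) (by omega) ω', hT]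
  have hx1 : F.x1 B ω = F.x1 B ω' := Pool.KA.Win.x1_det F B hu hd hT1
  have hwu : (F.win B).u ω = (F.win B).u ω' := by
    funext i
    show Int.fract (2 ^ B * F.x1 B ω i) = Int.fract (2 ^ B * F.x1 B ω' i)
    rw [hx1]
  have hwd : (F.win B).d ω = (F.win B).d ω' := hd
  have hc : F.c B ω = F.c B ω' := by
    unfold Fam.c
    rw [hT1, hx1, hZ]
  have hyy : y ω = y ω' := hy ω ω' (Prod.ext hl (Prod.ext hZ hT1))
  have hTT : (zm F B P hP y).T ω = (zm F B P hP y).T ω' := by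
    rw [zm_T, zm_T, zT_of_div F ω hP, zT_of_div F ω' hP, hT]
  have hZZ : (zm F B P hP y).Z ω = (zm F B P hP y).Z ω' := by
    rw [zm_Z, zm_Z, hyy, hc]
    congr 1
    show (fl P ((F.win B).u ω), fl P ((F.win B).d ω)) =
      (fl P ((F.win B).u ω'), fl P ((F.win B).d ω'))
    rw [hwu, hwd]
  refine ⟨?_, Prod.ext hTT hZZ⟩
  funext k
  have e1 : (zm F B P hP y).u ω = (zm F B P hP y).u ω' := by
    funext i
    show Int.fract (2 ^ P * (F.win B).u ω i) = Int.fract (2 ^ P * (F.win B).u ω' i)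
    rw [hwu]
  have e2 : (zm F B P hP y).d ω = (zm F B P hP y).d ω' := by
    funext i
    show Int.fract (2 ^ P * (F.win B).d ω i) = Int.fract (2 ^ P * (F.win B).d ω' i)
    rw [hwd]
  show (zm F B P hP y).u ω k + ((zm F B P hP y).T ω : ℝ) / 2 ^ (J - B - P) *
    (zm F B P hP y).d ω k = (zm F B P hP y).u ω' k + ((zm F B P hP y).T ω' : ℝ) /
      2 ^ (J - B - P) * (zm F B P hP y).d ω' k
  rw [e1, e2, hTT]

end

end Pool.REX
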