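import Pool.Agent.H72.ACT.Start
import Pool.Agent.H45.EXA.Vgr
import Pool.Agent.H13.K2S.NoPlank

/-!
# Exactness behind records: statement

`Vz m`: a zoom: windows of length `2 ^ (-b J)`, a visible variable `y` which is a function of the
line and of the window, tubes of width `2 ^ (-p (1 - b) J)` (in the windows). `Vz.fam v F`: the
family zoomed into the window and into the tube, with the visible variable as side information.
`RecC S v`: the class of these families. `Vz.pul S v S'`: the families of `S` whose zooms are in the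
subclass `S'` of `RecC S v`. `RexStmt n`: **exactness of `n` coordinates behind records**: a
function `z` of the exact point, of `y` and of the digits `v.dg` of the direction, which is a
function of the line and of a short window, leaves free the digits of the coordinates behind the
numbers of the closed labels of the class `S'`.
-/

set_option autoImplicit false

namespace Pool.REX

open Finset Real
open Pool.Agent.H49.Ent Pool.Agent.H32.Dense Pool.STK Pool.KA Pool.KSAT Pool.K2S Pool.PB Pool.S6C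
open Pool.GEN

variable {m n J : ℕ}

/-- **A zoom with a visible variable.** -/
structure Vz (m : ℕ) where
  /-- the window -/
  b : ℝ
  /-- the tube, relative to the window -/
  p : ℝ
  b0 : 0 ≤ b
  b1 : b < 1
  p0 : 0 ≤ p
  p1 : p < 1
  /-- the values of the visible variable -/
  κ : ∀ J : ℕ, Fam m J → Type
  /-- the visible variable -/
  y : ∀ (J : ℕ) (F : Fam m J), F.Ω → κ J F
  line : ∀ (J : ℕ) (F : Fam m J) (ω ω' : F.Ω), slam F ⌊b * J⌋₊ ω = slam F ⌊b * J⌋₊ ω' →
    y J F ω = y J F ω'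

namespace Vz

variable (v : Vz m)

/-- The number of digits of the window. -/
noncomputable def B (J : ℕ) : ℕ := ⌊v.b * J⌋₊

/-- The number of digits of the tube. -/
noncomputable def P (J : ℕ) : ℕ := ⌊v.p * ((J - v.B J : ℕ) : ℝ)⌋₊

/-- The resolution of the zoom. -/
noncomputable def R (J : ℕ) : ℕ := J - v.B J - v.P J

/-- The family in the window, with the visible variable. -/
noncomputable def win (F : Fam m J) : Fam m (J - v.B J) := (F.win (v.B J)).cnd (v.y J F)

/-- The zoom. -/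
noncomputable def fam (F : Fam m J) (h : v.P J ≤ J - v.B J) : Fam m (v.R J) :=
  (v.win F).tub (v.P J) h

/-- The windows in the zoom, in units of the family. -/
noncomputable def tm (w : ℝ) : ℝ := v.b + (1 - v.b) * (1 - v.p) * w

/-- The radii and the precisions in the zoom, in units of the family. -/
noncomputable def sc (x : ℝ) : ℝ := v.b + (1 - v.b) * (v.p + (1 - v.p) * x)

/-- The digits of the direction which are visible. -/
noncomputable def dg (F : Fam m J) : F.Ω → Fin m → ℤ := F.D (v.P J)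

end Vz

/-- The families of a class in the windows, with the visible variable. -/
inductive WySt (S : PCl m) (v : Vz m) (τ : ℝ) : ∀ (J : ℕ) (F : Fam m J), (F.Ω → Prop) → Prop
  | mk (J : ℕ) (F : Fam m J) (A : F.Ω → Prop) (hS : S.St τ J F A) :
      WySt S v τ (J - v.B J) (v.win F) A

/-- The class of the windows. -/
def WyC (S : PCl m) (v : Vz m) : PCl m where
  St := WySt S v
  mono := by
    rintro τ τ' J F A h ⟨J, F, A, hS⟩
    exact ⟨J, F, A, S.mono h hS⟩
  res := by
    rintro τ τ' J F A B h0 ⟨J, F, A, hS⟩ hB hP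
    refine ⟨J, F, B, S.res h0 hS hB (le_trans ?_ hP)⟩
    refine mul_le_mul_of_nonneg_right (Real.exp_le_exp.2 (neg_le_neg ?_)) (Pe_nonneg F.isLaw A)
    refine mul_le_mul_of_nonneg_left ?_ h0
    exact_mod_cast Nat.sub_le _ _

/-- **The class of the zooms.** -/
def RecC (S : PCl m) (v : Vz m) : PCl m := TubC (WyC S v) v.p

theorem Vz.floor_le (v : Vz m) (J : ℕ) : v.B J ≤ J ∧ v.P J ≤ J - v.B J ∧
    (J : ℝ) ≤ 1 / ((1 - v.b) * (1 - v.p)) * (v.R J : ℝ) := by
  have hJ : (0 : ℝ) ≤ J := Nat.cast_nonneg J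
  have hb := v.b0
  have hb1 := v.b1
  have hp := v.p0
  have hp1 := v.p1
  have h1 : (v.B J : ℝ) ≤ v.b * J := Nat.floor_le (by positivity)
  have h2 : v.B J ≤ J := by
    have : (v.B J : ℝ) ≤ J := by nlinarith
    exact_mod_cast this
  have h3 : ((J - v.B J : ℕ) : ℝ) = J - v.B J := by rw [Nat.cast_sub h2]
  have h30 : (0 : ℝ) ≤ ((J - v.B J : ℕ) : ℝ) := Nat.cast_nonneg _
  have h4 : (v.P J : ℝ) ≤ v.p * ((J - v.B J : ℕ) : ℝ) := Nat.floor_le (by positivity)
  have h5 : v.P J ≤ J - v.B J := by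
    have : (v.P J : ℝ) ≤ ((J - v.B J : ℕ) : ℝ) := by nlinarith
    exact_mod_cast this
  refine ⟨h2, h5, ?_⟩
  have h6 : (v.R J : ℝ) = ((J - v.B J : ℕ) : ℝ) - v.P J := by
    unfold Vz.R
    rw [Nat.cast_sub h5]
  have h7 : 0 < (1 - v.b) * (1 - v.p) := mul_pos (by linarith) (by linarith)
  rw [one_div, ← div_eq_inv_mul, le_div_iff₀ h7, h6]
  have h8 : (1 - v.p) * ((J - v.B J : ℕ) : ℝ) ≤ ((J - v.B J : ℕ) : ℝ) - v.P J := by linarith
  have h9 : (1 - v.b) * J ≤ ((J - v.B J : ℕ) : ℝ) := by rw [h3]; linarith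
  have h10 : (1 - v.p) * ((1 - v.b) * J) ≤ (1 - v.p) * ((J - v.B J : ℕ) : ℝ) :=
    mul_le_mul_of_nonneg_left h9 (by linarith)
  have e1 : (J : ℝ) * ((1 - v.b) * (1 - v.p)) = (1 - v.p) * ((1 - v.b) * J) := by ring
  rw [e1]
  linarith

/-- The families of a class whose zooms are in a class. -/
noncomputable def pul (S : PCl m) (v : Vz m) (S' : PCl m) : PCl m where
  St τ J F A := S.St τ J F A ∧ ∀ h : v.P J ≤ J - v.B J,
    S'.St (1 / ((1 - v.b) * (1 - v.p)) * τ) (v.R J) (v.fam F h) A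
  mono := by
    rintro τ τ' J F A h ⟨h1, h2⟩
    refine ⟨S.mono h h1, fun h3 => S'.mono (mul_le_mul_of_nonneg_left h ?_) (h2 h3)⟩
    have hb1 := v.b1
    have hp1 := v.p1
    have : 0 < (1 - v.b) * (1 - v.p) := mul_pos (by linarith) (by linarith)
    positivity
  res := by
    rintro τ τ' J F A B h0 ⟨h1, h2⟩ hB hP
    refine ⟨S.res h0 h1 hB hP, fun h3 => ?_⟩
    have hb1 := v.b1
    have hp1 := v.p1
    have hc : 0 < (1 - v.b) * (1 - v.p) := mul_pos (by linarith) (by linarith)
    rw [mul_add]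
    refine S'.res (by positivity) (h2 h3) hB (le_trans ?_ hP)
    refine mul_le_mul_of_nonneg_right (Real.exp_le_exp.2 (neg_le_neg ?_)) (Pe_nonneg F.isLaw A)
    have h4 := mul_le_mul_of_nonneg_left (v.floor_le J).2.2 h0
    calc τ' * (J : ℝ) ≤ τ' * (1 / ((1 - v.b) * (1 - v.p)) * (v.R J : ℝ)) := h4
      _ = 1 / ((1 - v.b) * (1 - v.p)) * τ' * (v.R J : ℝ) := by ring

/-- **Exactness behind records.** `S'`: a class of zooms with the numbers `L` of its closed labels
and with an active coordinate `ε 0` (active behind the digits `v.dg`, given the exact point and the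
visible variable); `w`: a window of the zoom with the greedy order `ε` (all windows outside a
countable set have such an order, `wv_cover`). -/
def RexStmt (n : ℕ) : Prop :=
  FZX n → ∀ {m : ℕ} {S : PCl m} {C₀ : ℝ}, 0 ≤ C₀ → TmC S C₀ →
  ∀ (v : Vz m) {S' : PCl m}, S'.Ne →
  (∀ (τ : ℝ) (J : ℕ) (F : Fam m J) (A : F.Ω → Prop), S'.St τ J F A → (RecC S v).St τ J F A) →
  ∀ {L : Finset (Fin m) → Fin m → ℝ → ℝ → ℝ}, LamW S' L →
  ∀ {N : ℚ → ℚ → ℝ} {al : ℝ} {g₀ : ℝ → ℝ}, 0 < al → (∀ e : ℝ, 0 < e → 0 < g₀ e) →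
  ActM N al g₀ → ∀ {ε : Fin n → Fin m}, Function.Injective ε →
  (∀ k : Fin n, (k : ℕ) = 0 → ActB N S' (ε k)) →
  ∀ {w : ℝ}, w ∈ Wv L ε → ∀ ρ : ℝ, 0 < ρ →
  Bas (pul S v S') (fun J F A =>
    ∀ (V : Type) (z : PtT F → v.κ J F → (Fin m → ℤ) → V) (z' : LnT F → V),
    (∀ ω, A ω → z (ptr F J ω) (v.y J F ω) (v.dg F ω) = z' (slam F ⌊v.tm w * J⌋₊ ω)) →
    ((∑ j : Fin n, (1 - v.sc (vs L ε w (j + 1)))) - ρ) * Real.log 2 * J ≤
      CH (Pool.Agent.H49.Ent.cond F.p A True) (fun ω j => F.X J ω (ε j))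
        (fun ω => (z' (slam F ⌊v.tm w * J⌋₊ ω), F.W ω)))

end Pool.REX
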