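import Pool.Agent.H72.REC.StmV

/-!
# Exactness behind records at a lower resolution: statement

`Vt m`: a zoom: windows of length `2 ^ (-b J)`, the resolution `g J`, tubes of width
`2 ^ (-p (g - b) J)` (in the windows) and a visible variable `y` which is a function of the line
and of the window. `Vt.winT v ε F`: the coordinates `ε` of the family of resolution `g J` in the
window, with the visible variable. `Vt.famT`: the zoom into the tubes of these coordinates.
`RecT S v ε`: the class of these families, `pulT S v ε S'`: the families of `S` with zooms in `S'`.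
`RexT n`: **exactness of `n` coordinates behind records**: the digits before `g J` of the
coordinates `ε` behind the numbers of the closed labels of the zooms (which see these coordinates
only to `g J` digits) are free, given the visible variable, the time and the side information.
-/

set_option autoImplicit false

namespace Pool.REX

open Finset Real
open Pool.Agent.H49.Ent Pool.Agent.H32.Dense Pool.STK Pool.KA Pool.KSAT Pool.K2S Pool.PB Pool.S6C
open Pool.GEN

variable {m n J : ℕ}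

/-- **A zoom of lower resolution, with a visible variable.** -/
structure Vt (m : ℕ) where
  /-- the window -/
  b : ℝ
  /-- the resolution -/
  g : ℝ
  /-- the tube, relative to the window and to the resolution -/
  p : ℝ
  b0 : 0 ≤ b
  bg : b < g
  g1 : g ≤ 1
  p0 : 0 ≤ p
  p1 : p < 1
  /-- the values of the visible variable -/
  κ : ∀ J : ℕ, Fam m J → Type
  /-- the visible variable -/
  y : ∀ (J : ℕ) (F : Fam m J), F.Ω → κ J F
  line : ∀ (J : ℕ) (F : Fam m J) (ω ω' : F.Ω), slam F ⌊b * J⌋₊ ω = slam F ⌊b * J⌋₊ ω' →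
    y J F ω = y J F ω'

namespace Vt

variable (v : Vt m)

/-- The number of digits of the window. -/
noncomputable def B (J : ℕ) : ℕ := ⌊v.b * J⌋₊

/-- The resolution. -/
noncomputable def G (J : ℕ) : ℕ := ⌈v.g * J⌉₊

/-- The number of digits of the tube. -/
noncomputable def P (J : ℕ) : ℕ := ⌊v.p * ((v.G J - v.B J : ℕ) : ℝ)⌋₊

/-- The resolution of the zoom. -/
noncomputable def R (J : ℕ) : ℕ := v.G J - v.B J - v.P J

/-- The windows in the zoom, in units of the family. -/
noncomputable def tm (w : ℝ) : ℝ := v.b + (v.g - v.b) * (1 - v.p) * w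

/-- The radii and the precisions in the zoom, in units of the family. -/
noncomputable def sc (x : ℝ) : ℝ := v.b + (v.g - v.b) * (v.p + (1 - v.p) * x)

theorem c_pos : 0 < (v.g - v.b) * (1 - v.p) := by
  have h1 := v.bg
  have h2 := v.p1
  exact mul_pos (by linarith) (by linarith)

theorem c_le : (v.g - v.b) * (1 - v.p) ≤ 1 := by
  have h1 := v.bg
  have h2 := v.p1
  have h3 := v.p0
  have h4 := v.b0
  have h5 := v.g1
  exact mul_le_one₀ (by linarith) (by linarith) (by linarith)

theorem G_le (J : ℕ) : v.G J ≤ J := by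
  have hJ : (0 : ℝ) ≤ J := Nat.cast_nonneg J
  have h1 := v.g1
  refine Nat.ceil_le.2 ?_
  nlinarith

theorem B_le (J : ℕ) : v.B J ≤ v.G J := by
  have hJ : (0 : ℝ) ≤ J := Nat.cast_nonneg J
  have hb := v.b0
  have hg := v.bg
  have h1 : (v.B J : ℝ) ≤ v.b * J := Nat.floor_le (by positivity)
  have h2 : v.g * J ≤ (v.G J : ℝ) := Nat.le_ceil _
  have h3 : v.b * J ≤ v.g * J := mul_le_mul_of_nonneg_right hg.le hJ
  have h4 : (v.B J : ℝ) ≤ v.G J := by linarith
  exact_mod_cast h4

theorem P_le (J : ℕ) : v.P J ≤ v.G J - v.B J := by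
  have hp := v.p0
  have hp1 := v.p1
  have h30 : (0 : ℝ) ≤ ((v.G J - v.B J : ℕ) : ℝ) := Nat.cast_nonneg _
  have h4 : (v.P J : ℝ) ≤ v.p * ((v.G J - v.B J : ℕ) : ℝ) := Nat.floor_le (by positivity)
  have : (v.P J : ℝ) ≤ ((v.G J - v.B J : ℕ) : ℝ) := by nlinarith
  exact_mod_cast this

theorem le_R (J : ℕ) : (J : ℝ) ≤ 1 / ((v.g - v.b) * (1 - v.p)) * (v.R J : ℝ) := by
  have hJ : (0 : ℝ) ≤ J := Nat.cast_nonneg J
  have hb := v.b0
  have hp := v.p0
  have hp1 := v.p1
  have h1 : (v.B J : ℝ) ≤ v.b * J := Nat.floor_le (by positivity)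
  have h2 : v.g * J ≤ (v.G J : ℝ) := Nat.le_ceil _
  have h3 : ((v.G J - v.B J : ℕ) : ℝ) = v.G J - v.B J := by rw [Nat.cast_sub (v.B_le J)]
  have h30 : (0 : ℝ) ≤ ((v.G J - v.B J : ℕ) : ℝ) := Nat.cast_nonneg _
  have h4 : (v.P J : ℝ) ≤ v.p * ((v.G J - v.B J : ℕ) : ℝ) := Nat.floor_le (by positivity)
  have h6 : (v.R J : ℝ) = ((v.G J - v.B J : ℕ) : ℝ) - v.P J := by
    unfold Vt.R
    rw [Nat.cast_sub (v.P_le J)]
  rw [one_div, ← div_eq_inv_mul, le_div_iff₀ v.c_pos, h6]
  have h8 : (1 - v.p) * ((v.G J - v.B J : ℕ) : ℝ) ≤ ((v.G J - v.B J : ℕ) : ℝ) - v.P J := by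
    linarith
  have h9 : (v.g - v.b) * J ≤ ((v.G J - v.B J : ℕ) : ℝ) := by rw [h3]; linarith
  have h10 : (1 - v.p) * ((v.g - v.b) * J) ≤ (1 - v.p) * ((v.G J - v.B J : ℕ) : ℝ) :=
    mul_le_mul_of_nonneg_left h9 (by linarith)
  have e1 : (J : ℝ) * ((v.g - v.b) * (1 - v.p)) = (1 - v.p) * ((v.g - v.b) * J) := by ring
  rw [e1]
  linarith

variable (ε : Fin n → Fin m)

/-- Some coordinates of the family of lower resolution in the window, with the visible
variable. -/
noncomputable def winT (F : Fam m J) : Fam n (v.G J - v.B J) :=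
  prj (((F.trc (v.G J) (v.G_le J)).win (v.B J)).cnd (v.y J F)) ε

/-- The zoom of these coordinates. -/
noncomputable def famT (F : Fam m J) : Fam n (v.R J) := (v.winT ε F).tub (v.P J) (v.P_le J)

end Vt

/-- Some coordinates of the families of a class in the windows, at a lower resolution, with the
visible variable. -/
inductive WyTSt (S : PCl m) (v : Vt m) (ε : Fin n → Fin m) (τ : ℝ) :
    ∀ (J : ℕ) (F : Fam n J), (F.Ω → Prop) → Prop
  | mk (J : ℕ) (F : Fam m J) (A : F.Ω → Prop) (hS : S.St τ J F A) :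
      WyTSt S v ε τ (v.G J - v.B J) (v.winT ε F) A

/-- The class of the windows. -/
def WyT (S : PCl m) (v : Vt m) (ε : Fin n → Fin m) : PCl n where
  St := WyTSt S v ε
  mono := by
    rintro τ τ' J F A h ⟨J, F, A, hS⟩
    exact ⟨J, F, A, S.mono h hS⟩
  res := by
    rintro τ τ' J F A B h0 ⟨J, F, A, hS⟩ hB hP
    refine ⟨J, F, B, S.res h0 hS hB (le_trans ?_ hP)⟩
    refine mul_le_mul_of_nonneg_right (Real.exp_le_exp.2 (neg_le_neg ?_)) (Pe_nonneg F.isLaw A)
    refine mul_le_mul_of_nonneg_left ?_ h0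
    exact_mod_cast (Nat.sub_le _ _).trans (v.G_le J)

/-- **The class of the zooms of some coordinates, at a lower resolution.** -/
def RecT (S : PCl m) (v : Vt m) (ε : Fin n → Fin m) : PCl n := TubC (WyT S v ε) v.p

/-- The families of a class whose zooms are in a class. -/
noncomputable def pulT (S : PCl m) (v : Vt m) (ε : Fin n → Fin m) (S' : PCl n) : PCl m where
  St τ J F A := S.St τ J F A ∧
    S'.St (1 / ((v.g - v.b) * (1 - v.p)) * τ) (v.R J) (v.famT ε F) A
  mono := by
    rintro τ τ' J F A h ⟨h1, h2⟩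
    refine ⟨S.mono h h1, S'.mono (mul_le_mul_of_nonneg_left h ?_) h2⟩
    have := v.c_pos
    positivity
  res := by
    rintro τ τ' J F A B h0 ⟨h1, h2⟩ hB hP
    refine ⟨S.res h0 h1 hB hP, ?_⟩
    have hc := v.c_pos
    rw [mul_add]
    refine S'.res (by positivity) h2 hB (le_trans ?_ hP)
    refine mul_le_mul_of_nonneg_right (Real.exp_le_exp.2 (neg_le_neg ?_)) (Pe_nonneg F.isLaw A)
    have h4 := mul_le_mul_of_nonneg_left (v.le_R J) h0
    calc τ' * (J : ℝ) ≤ τ' * (1 / ((v.g - v.b) * (1 - v.p)) * (v.R J : ℝ)) := h4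
      _ = 1 / ((v.g - v.b) * (1 - v.p)) * τ' * (v.R J : ℝ) := by ring

/-- **Exactness of `n` coordinates behind records, at a lower resolution.** `S'`: a class of zooms
of the coordinates `ε` with the numbers `L` of its closed labels and with an active coordinate
`σ 0`; `w`: a window of the zoom with the greedy order `σ`. -/
def RexT (n : ℕ) : Prop :=
  FZX n → ∀ {m : ℕ} {S : PCl m} {C₀ : ℝ}, 0 ≤ C₀ → TmC S C₀ →
  ∀ (v : Vt m) (ε : Fin n → Fin m) {S' : PCl n}, S'.Ne →
  (∀ (τ : ℝ) (J : ℕ) (F : Fam n J) (A : F.Ω → Prop), S'.St τ J F A →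
    (RecT S v ε).St τ J F A) →
  ∀ {L : Finset (Fin n) → Fin n → ℝ → ℝ → ℝ}, LamW S' L →
  ∀ {N : ℚ → ℚ → ℝ} {al : ℝ} {g₀ : ℝ → ℝ}, 0 < al → (∀ e : ℝ, 0 < e → 0 < g₀ e) →
  ActM N al g₀ → ∀ {σ : Fin n → Fin n}, Function.Injective σ →
  (∀ k : Fin n, (k : ℕ) = 0 → ActB N S' (σ k)) →
  ∀ {w : ℝ}, w ∈ Wv L σ → ∀ ρ : ℝ, 0 < ρ →
  Bas (pulT S v ε S') (fun J F A =>
    ((∑ j : Fin n, (v.g - v.sc (vs L σ w (j + 1)))) - ρ) * Real.log 2 * J ≤
      CH (Pool.Agent.H49.Ent.cond F.p A True) (fun ω j => F.X (v.G J) ω (ε j))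
        (fun ω => (v.y J F ω, F.W ω)))

end Pool.REX
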