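import Pool.Agent.H72.REC.Stm
import Pool.Agent.H71.GEN.Zf

/-!
# Exactness behind records, with some of the coordinates: statement

`Vz.winV v ε F`: the coordinates `ε` of the family in the window, with the visible variable (and
with the side information of the window). `Vz.famV`: the zoom into the tubes of these coordinates;
only digits of the velocities of these coordinates are visible. `RecV S v ε`: the class of these
families, `pulV S v ε S'`: the families of `S` with zooms in `S'`.
`RexV n`: **exactness of `n` coordinates behind records**: given the visible variable, the time and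
the side information, the digits of the coordinates `ε` behind the numbers of the closed labels of
the zooms are free. The visible variable is any function of the line and of the window: it can
contain a record.
-/

set_option autoImplicit false

namespace Pool.REX

open Finset Real
open Pool.Agent.H49.Ent Pool.Agent.H32.Dense Pool.STK Pool.KA Pool.KSAT Pool.K2S Pool.PB Pool.S6C
open Pool.GEN

variable {m n J : ℕ}

namespace Vz

variable (v : Vz m) (ε : Fin n → Fin m)

/-- Some coordinates of the family in the window, with the visible variable. -/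
noncomputable def winV (F : Fam m J) : Fam n (J - v.B J) := prj (v.win F) ε

/-- The zoom of these coordinates. -/
noncomputable def famV (F : Fam m J) (h : v.P J ≤ J - v.B J) : Fam n (v.R J) :=
  (v.winV ε F).tub (v.P J) h

end Vz

/-- Some coordinates of the families of a class in the windows, with the visible variable. -/
inductive WyVSt (S : PCl m) (v : Vz m) (ε : Fin n → Fin m) (τ : ℝ) :
    ∀ (J : ℕ) (F : Fam n J), (F.Ω → Prop) → Prop
  | mk (J : ℕ) (F : Fam m J) (A : F.Ω → Prop) (hS : S.St τ J F A) :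
      WyVSt S v ε τ (J - v.B J) (v.winV ε F) A

/-- The class of the windows. -/
def WyV (S : PCl m) (v : Vz m) (ε : Fin n → Fin m) : PCl n where
  St := WyVSt S v ε
  mono := by
    rintro τ τ' J F A h ⟨J, F, A, hS⟩
    exact ⟨J, F, A, S.mono h hS⟩
  res := by
    rintro τ τ' J F A B h0 ⟨J, F, A, hS⟩ hB hP
    refine ⟨J, F, B, S.res h0 hS hB (le_trans ?_ hP)⟩
    refine mul_le_mul_of_nonneg_right (Real.exp_le_exp.2 (neg_le_neg ?_)) (Pe_nonneg F.isLaw A)
    refine mul_le_mul_of_nonneg_left ?_ h0
    exact_mod_cast Nat.sub_le _ _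

/-- **The class of the zooms of some coordinates.** -/
def RecV (S : PCl m) (v : Vz m) (ε : Fin n → Fin m) : PCl n := TubC (WyV S v ε) v.p

/-- The families of a class whose zooms are in a class. -/
noncomputable def pulV (S : PCl m) (v : Vz m) (ε : Fin n → Fin m) (S' : PCl n) : PCl m where
  St τ J F A := S.St τ J F A ∧ ∀ h : v.P J ≤ J - v.B J,
    S'.St (1 / ((1 - v.b) * (1 - v.p)) * τ) (v.R J) (v.famV ε F h) A
  mono := by
    rintro τ τ' J F A h ⟨h1, h2⟩
    refine ⟨S.mono h h1, fun h3 => S'.mono (mul_le_mul_of_nonneg_left h ?_) (h2 h3)⟩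
    have hb1 := v.b1
    have hp1 := v.p1
    have : 0 < (1 - v.b) * (1 - v.p) := mul_pos (by linarith) (by linarith)
    positivity
  res := by
    rintro τ τ' J F A B h0 ⟨h1, h2⟩ hB hP
    refine ⟨S.res h0 h1 hB hP, fun h3 => ?_⟩
    have hb1 := v.b1
    have hp1 := v.p1
    have hc : 0 < (1 - v.b) * (1 - v.p) := mul_pos (by linarith) (by linarith)
    rw [mul_add]
    refine S'.res (by positivity) (h2 h3) hB (le_trans ?_ hP)
    refine mul_le_mul_of_nonneg_right (Real.exp_le_exp.2 (neg_le_neg ?_)) (Pe_nonneg F.isLaw A)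
    have h4 := mul_le_mul_of_nonneg_left (v.floor_le J).2.2 h0
    calc τ' * (J : ℝ) ≤ τ' * (1 / ((1 - v.b) * (1 - v.p)) * (v.R J : ℝ)) := h4
      _ = 1 / ((1 - v.b) * (1 - v.p)) * τ' * (v.R J : ℝ) := by ring

/-- **Exactness of `n` coordinates behind records.** `S'`: a class of zooms of the coordinates `ε`
with the numbers `L` of its closed labels and with an active coordinate `σ 0`; `w`: a window of the
zoom with the greedy order `σ`. -/
def RexV (n : ℕ) : Prop :=
  FZX n → ∀ {m : ℕ} {S : PCl m} {C₀ : ℝ}, 0 ≤ C₀ → TmC S C₀ →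
  ∀ (v : Vz m) (ε : Fin n → Fin m) {S' : PCl n}, S'.Ne →
  (∀ (τ : ℝ) (J : ℕ) (F : Fam n J) (A : F.Ω → Prop), S'.St τ J F A →
    (RecV S v ε).St τ J F A) →
  ∀ {L : Finset (Fin n) → Fin n → ℝ → ℝ → ℝ}, LamW S' L →
  ∀ {N : ℚ → ℚ → ℝ} {al : ℝ} {g₀ : ℝ → ℝ}, 0 < al → (∀ e : ℝ, 0 < e → 0 < g₀ e) →
  ActM N al g₀ → ∀ {σ : Fin n → Fin n}, Function.Injective σ →
  (∀ k : Fin n, (k : ℕ) = 0 → ActB N S' (σ k)) →
  ∀ {w : ℝ}, w ∈ Wv L σ → ∀ ρ : ℝ, 0 < ρ →
  Bas (pulV S v ε S') (fun J F A =>
    ((∑ j : Fin n, (1 - v.sc (vs L σ w (j + 1)))) - ρ) * Real.log 2 * J ≤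
      CH (Pool.Agent.H49.Ent.cond F.p A True) (fun ω j => F.X J ω (ε j))
        (fun ω => (v.y J F ω, F.W ω)))

end Pool.REX
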